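import Pool.Agent.QDA.StmtsM
import Pool.Agent.Helper54_Ballistic.PlanchT
import Pool.Agent.Helper54_QE.Alg
import Pool.Agent.Helper30_QDA.Ptz

/-!
# QDA, row TAV: the Plancherel formula and the total mass
-/

set_option autoImplicit false

open MeasureTheory ProbabilityTheory Function Filter

open scoped BigOperators NNReal ENNReal Matrix InnerProductSpace Topology

noncomputable section

namespace Pool.Agent.QDA.H76

open Pool.Agent.Anderson hiding box mem_box card_box
open Pool.Agent.Loc Pool.Agent.Mob Pool.Agent.Helper54.Bal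
  Pool.Agent.Helper96.EXP Pool.Agent.BED

variable {d : ℕ}

theorem zz_im (η E : ℝ) : (zz η E).im = η := by simp [zz]

theorem zz_im_ne {η : ℝ} (hη : 0 < η) (E : ℝ) : (zz η E).im ≠ 0 := by
  rw [zz_im]
  exact hη.ne'

/-- the mass of `η |G|²` on the set `S` -/
def mm (S : Set (Site d)) (η : ℝ) (V : Site d → ℝ) (E : ℝ) : ℝ≥0∞ :=
  ∑' x : Site d, S.indicator (fun x => ENNReal.ofReal (η * ‖G V (zz η E) (del 0) x‖ ^ 2)) x

/-- the resolvent depends measurably on the potential -/
theorem measG (E : ℝ) {η : ℝ} (hη : 0 < η) (y : Site d) :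
    Measurable fun V : Site d → ℝ => G V (zz η E) (del 0) y := by
  have h := (Pool.Agent.QE.Cov.res (d := d) (zz_im_ne hη E)).meas (del 0)
  have h2 : StronglyMeasurable fun V : Site d → ℝ => ⟪(del y : L2 d), G V (zz η E) (del 0)⟫_ℂ :=
    stronglyMeasurable_const.inner h
  have h3 : (fun V : Site d → ℝ => G V (zz η E) (del 0) y) =
      fun V => ⟪(del y : L2 d), G V (zz η E) (del 0)⟫_ℂ := by
    funext V
    rw [← coord_apply]
    rfl
  rw [h3]
  exact h2.measurable

theorem contG (V : Site d → ℝ) {η : ℝ} (hη : 0 < η) (y : Site d) :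
    Continuous fun E : ℝ => G V (zz η E) (del 0) y :=
  continuous_coord ((isRes_G V).cont_line hη.ne' (del 0)) y

theorem measG2 {η : ℝ} (hη : 0 < η) (y : Site d) :
    Measurable fun p : ℝ × (Site d → ℝ) => G p.2 (zz η p.1) (del 0) y := by
  have h := measurable_uncurry_of_continuous_of_measurable
    (u := fun (E : ℝ) (V : Site d → ℝ) => G V (zz η E) (del 0) y)
    (fun V => contG V hη y) (fun E => measG E hη y)
  exact h

theorem meas_mm (S : Set (Site d)) {η : ℝ} (hη : 0 < η) :
    Measurable fun p : ℝ × (Site d → ℝ) => mm S η p.2 p.1 := by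
  unfold mm
  refine Measurable.tsum fun y => ?_
  by_cases h : y ∈ S
  · simp only [Set.indicator_of_mem h]
    exact ENNReal.measurable_ofReal.comp (((measG2 hη y).norm.pow_const 2).const_mul η)
  · simp only [Set.indicator_of_notMem h]
    exact measurable_const

theorem meas_mm_E (S : Set (Site d)) {η : ℝ} (hη : 0 < η) (V : Site d → ℝ) :
    Measurable fun E : ℝ => mm S η V E := by
  have h1 : Measurable fun E : ℝ => (E, V) := measurable_id.prodMk measurable_const
  have h : Measurable ((fun p : ℝ × (Site d → ℝ) => mm S η p.2 p.1) ∘ fun E : ℝ => (E, V)) :=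
    (meas_mm S hη).comp h1
  exact h

theorem meas_mm_V (S : Set (Site d)) {η : ℝ} (hη : 0 < η) (E : ℝ) :
    Measurable fun V : Site d → ℝ => mm S η V E := by
  have h1 : Measurable fun V : Site d → ℝ => (E, V) := measurable_const.prodMk measurable_id
  have h : Measurable ((fun p : ℝ × (Site d → ℝ) => mm S η p.2 p.1) ∘
      fun V : Site d → ℝ => (E, V)) := (meas_mm S hη).comp h1
  exact h

/-- the Ward identity -/
theorem ward (V : Site d → ℝ) {η : ℝ} (hη : 0 < η) (E : ℝ) :
    (G V (zz η E) (del 0) 0).im = η * ‖G V (zz η E) (del 0)‖ ^ 2 := by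
  have h := (isRes_G V).im_inner (zz_im_ne hη E) (del 0)
  rw [zz_im] at h
  rw [← h, ← coord_apply]
  rfl

theorem mm_univ (V : Site d → ℝ) {η : ℝ} (hη : 0 < η) (E : ℝ) :
    mm Set.univ η V E = ENNReal.ofReal ((G V (zz η E) (del 0) 0).im) := by
  rw [ward V hη E, H30.norm_sq, ← tsum_mul_left, ENNReal.ofReal_tsum_of_nonneg]
  · unfold mm
    simp only [Set.indicator_univ]
  · intro x
    positivity
  · exact (H30.summable_sq _).mul_left η

theorem mm_mono {S S' : Set (Site d)} (h : S ⊆ S') (η : ℝ) (V : Site d → ℝ) (E : ℝ) :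
    mm S η V E ≤ mm S' η V E :=
  ENNReal.tsum_le_tsum fun x => Set.indicator_le_indicator_of_subset h (fun _ => bot_le) x

/-- the Plancherel formula for the mass on the set `S` -/
theorem lint_mm (S : Set (Site d)) {V : Site d → ℝ} {ψ : ℝ → L2 d} (h : IsEvolution V ψ) {η : ℝ}
    (hη : 0 < η) :
    ∫⁻ E : ℝ, mm S η V E = ENNReal.ofReal (2 * Real.pi * η) *
      ∫⁻ t in Set.Ioi (0 : ℝ), ∑' x : Site d, S.indicator
        (fun x => ENNReal.ofReal (Real.exp (-(2 * η) * t) * ‖ψ t x‖ ^ 2)) x := by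
  have hm : ∀ x : Site d, Measurable fun t : ℝ =>
      S.indicator (fun x => ENNReal.ofReal (Real.exp (-(2 * η) * t) * ‖ψ t x‖ ^ 2)) x := by
    intro x
    by_cases hx : x ∈ S
    · simp only [Set.indicator_of_mem hx]
      refine ENNReal.measurable_ofReal.comp (Measurable.mul ?_ ?_)
      · exact (Real.continuous_exp.comp (continuous_const.mul continuous_id)).measurable
      · exact ((continuous_coord h.1 x).measurable.norm).pow_const 2
    · simp only [Set.indicator_of_notMem hx]
      exact measurable_const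
  rw [lintegral_tsum fun x => (hm x).aemeasurable, ← ENNReal.tsum_mul_left]
  unfold mm
  rw [lintegral_tsum]
  · refine tsum_congr fun x => ?_
    by_cases hx : x ∈ S
    · simp only [Set.indicator_of_mem hx]
      have e : ∀ E : ℝ, ENNReal.ofReal (η * ‖G V (zz η E) (del 0) x‖ ^ 2) =
          ENNReal.ofReal η * ENNReal.ofReal (‖G V (zz η E) (del 0) x‖ ^ 2) := fun E =>
        ENNReal.ofReal_mul hη.le
      simp only [e]
      rw [lintegral_const_mul' _ _ ENNReal.ofReal_ne_top, planch_coord h hη x, ← mul_assoc,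
        ← ENNReal.ofReal_mul hη.le]
      congr 2
      ring
    · simp only [Set.indicator_of_notMem hx, lintegral_zero, mul_zero]
  · intro x
    by_cases hx : x ∈ S
    · simp only [Set.indicator_of_mem hx]
      exact (ENNReal.measurable_ofReal.comp
        (((contG V hη x).measurable.norm.pow_const 2).const_mul η)).aemeasurable
    · simp only [Set.indicator_of_notMem hx]
      exact aemeasurable_const

theorem lint_exp {η : ℝ} (hη : 0 < η) :
    ∫⁻ t in Set.Ioi (0 : ℝ), ENNReal.ofReal (Real.exp (-(2 * η) * t)) =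
      ENNReal.ofReal (1 / (2 * η)) := by
  rw [← ofReal_integral_eq_lintegral_ofReal]
  · congr 1
    have := integral_exp_mul_Ioi (a := -(2 * η)) (by linarith) 0
    rw [this]
    simp
  · exact integrableOn_exp_mul_Ioi (by linarith) 0
  · filter_upwards with t using (Real.exp_pos _).le

/-- the total mass -/
theorem tsum_evol {V : Site d → ℝ} {ψ : ℝ → L2 d} (h : IsEvolution V ψ) (t : ℝ) {c : ℝ}
    (hc : 0 ≤ c) : ∑' x : Site d, ENNReal.ofReal (c * ‖ψ t x‖ ^ 2) = ENNReal.ofReal c := by
  rw [← ENNReal.ofReal_tsum_of_nonneg, tsum_mul_left, ← H30.norm_sq, norm_evol h]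
  · simp
  · intro x
    positivity
  · exact (H30.summable_sq _).mul_left c

theorem lint_univ (V : Site d → ℝ) {η : ℝ} (hη : 0 < η) :
    ∫⁻ E : ℝ, mm Set.univ η V E = ENNReal.ofReal Real.pi := by
  rw [lint_mm Set.univ (isEvolution_evol V) hη]
  simp only [Set.indicator_univ]
  have e : ∀ t : ℝ, ∑' x : Site d, ENNReal.ofReal (Real.exp (-(2 * η) * t) * ‖evol V t x‖ ^ 2) =
      ENNReal.ofReal (Real.exp (-(2 * η) * t)) := fun t =>
    tsum_evol (isEvolution_evol V) t (Real.exp_pos _).le
  simp only [e]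
  rw [lint_exp hη, ← ENNReal.ofReal_mul (by positivity)]
  congr 1
  field_simp

/-- the total mass of the spectral measure -/
theorem lint_im (V : Site d → ℝ) {η : ℝ} (hη : 0 < η) :
    ∫⁻ E : ℝ, ENNReal.ofReal ((G V (zz η E) (del 0) 0).im) = ENNReal.ofReal Real.pi := by
  rw [← lint_univ V hη]
  exact lintegral_congr fun E => (mm_univ V hη E).symm

/-- the average over the times `t ≤ T` -/
theorem avg_le (S : Set (Site d)) {V : Site d → ℝ} {ψ : ℝ → L2 d} (h : IsEvolution V ψ) {T : ℝ}
    (hT : 0 < T) :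
    ∫⁻ t in Set.Ioc (0 : ℝ) T, ∑' x : Site d, S.indicator
        (fun x => ENNReal.ofReal (‖ψ t x‖ ^ 2)) x ≤
      ENNReal.ofReal (2 * T) * ∫⁻ E : ℝ, mm S (1 / T) V E := by
  have hη : 0 < 1 / T := by positivity
  have hpi := Real.pi_pos
  have h9 : Real.exp 2 ≤ 9 := by
    have h1 := Real.exp_one_lt_d9
    have h2 : Real.exp 2 = Real.exp 1 ^ 2 := by
      rw [← Real.exp_nat_mul]
      norm_num
    rw [h2]
    nlinarith [Real.exp_pos 1]
  rw [lint_mm S h hη, ← mul_assoc, ← ENNReal.ofReal_mul (by positivity)]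
  have e1 : 2 * T * (2 * Real.pi * (1 / T)) = 4 * Real.pi := by
    field_simp
    ring
  rw [e1]
  have h1 : ∫⁻ t in Set.Ioc (0 : ℝ) T, ∑' x : Site d, S.indicator
        (fun x => ENNReal.ofReal (‖ψ t x‖ ^ 2)) x ≤
      ∫⁻ t in Set.Ioc (0 : ℝ) T, ENNReal.ofReal (4 * Real.pi) * ∑' x : Site d, S.indicator
        (fun x => ENNReal.ofReal (Real.exp (-(2 * (1 / T)) * t) * ‖ψ t x‖ ^ 2)) x := by
    refine setLIntegral_mono' measurableSet_Ioc fun t ht => ?_
    rw [← ENNReal.tsum_mul_left]
    refine ENNReal.tsum_le_tsum fun x => ?_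
    by_cases hx : x ∈ S
    · simp only [Set.indicator_of_mem hx]
      rw [← ENNReal.ofReal_mul (by positivity)]
      refine ENNReal.ofReal_le_ofReal ?_
      have h2 : t / T ≤ 1 := (div_le_one hT).2 ht.2
      have h3 : Real.exp (-2) ≤ Real.exp (-(2 * (1 / T)) * t) := by
        refine Real.exp_le_exp.2 ?_
        have : -(2 * (1 / T)) * t = -(2 * (t / T)) := by ring
        rw [this]
        linarith
      have h4 : 1 ≤ 4 * Real.pi * Real.exp (-2) := by
        rw [Real.exp_neg, ← div_eq_mul_inv, le_div_iff₀ (Real.exp_pos 2)]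
        have := Real.pi_gt_three
        linarith
      have h5 : 1 ≤ 4 * Real.pi * Real.exp (-(2 * (1 / T)) * t) :=
        h4.trans (mul_le_mul_of_nonneg_left h3 (by positivity))
      calc ‖ψ t x‖ ^ 2 = 1 * ‖ψ t x‖ ^ 2 := (one_mul _).symm
        _ ≤ (4 * Real.pi * Real.exp (-(2 * (1 / T)) * t)) * ‖ψ t x‖ ^ 2 :=
            mul_le_mul_of_nonneg_right h5 (sq_nonneg _)
        _ = _ := by ring
    · simp only [Set.indicator_of_notMem hx]
      exact bot_le
  refine h1.trans ?_
  rw [lintegral_const_mul' _ _ ENNReal.ofReal_ne_top]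
  refine mul_le_mul' le_rfl ?_
  exact lintegral_mono_set fun t ht => ht.1

end Pool.Agent.QDA.H76
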