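import Pool.Agent.QDA.Stmts
import Pool.Agent.Helper67_MAJ.MAJ

/-!
# QDA, row LOF: the waves leave every box (helper76)

The lower bound of the form, tested with the indicator of a box `S` of side `R = 2 ^ (j + 1)`, bounds the
conductances inside `S`; every pair at a distance smaller than `2 ^ j` lies in at least `2 ^ (j d)` of
these boxes. Boxes of more than `1 / 16` of the side of the torus: the row sums.
-/

set_option autoImplicit false

open scoped BigOperators Matrix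

noncomputable section

namespace Pool.Agent.QDA.H76

open Pool.Agent.LTG (LB Box bon mor sT tT Tor Bd)
open Pool.Agent.MAJ (maj S0)
open Pool.Agent.NAS (CS)

section abs

variable {X : Type} [Fintype X] [DecidableEq X]

/-- the form on an indicator -/
theorem form_ind (c : Matrix X X ℝ) (hc : ∀ x y, c x y = c y x) (S : Finset X) :
    1 / 2 * ∑ x, ∑ y, c x y * ((if x ∈ S then (1 : ℝ) else 0) - (if y ∈ S then 1 else 0)) ^ 2 =
      ∑ x ∈ S, (∑ y, c x y) - ∑ x ∈ S, ∑ y ∈ S, c x y := by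
  have h1 : ∀ x y, c x y * ((if x ∈ S then (1 : ℝ) else 0) - (if y ∈ S then 1 else 0)) ^ 2 =
      (if x ∈ S then (1 : ℝ) else 0) * c x y + (if y ∈ S then (1 : ℝ) else 0) * c x y -
        2 * ((if x ∈ S then (1 : ℝ) else 0) * ((if y ∈ S then (1 : ℝ) else 0) * c x y)) := by
    intro x y
    split_ifs <;> ring
  have h2 : ∑ x, ∑ y, (if x ∈ S then (1 : ℝ) else 0) * c x y = ∑ x ∈ S, ∑ y, c x y := by
    rw [← Finset.sum_filter_add_sum_filter_not Finset.univ (fun x => x ∈ S)]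
    have e1 : ∑ x ∈ Finset.univ.filter (fun x => x ∉ S), ∑ y,
        (if x ∈ S then (1 : ℝ) else 0) * c x y = 0 := by
      refine Finset.sum_eq_zero fun x hx => Finset.sum_eq_zero fun y _ => ?_
      rw [if_neg (Finset.mem_filter.1 hx).2, zero_mul]
    rw [e1, add_zero]
    refine Finset.sum_congr (by ext x; simp) fun x hx => Finset.sum_congr rfl fun y _ => ?_
    have hx' : x ∈ S := hx
    rw [if_pos hx', one_mul]
  have h3 : ∑ x, ∑ y, (if y ∈ S then (1 : ℝ) else 0) * c x y = ∑ x ∈ S, ∑ y, c x y := by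
    rw [Finset.sum_comm, ← h2]
    refine Finset.sum_congr rfl fun x _ => Finset.sum_congr rfl fun y _ => ?_
    rw [hc x y]
  have h4 : ∑ x, ∑ y, (if x ∈ S then (1 : ℝ) else 0) *
      ((if y ∈ S then (1 : ℝ) else 0) * c x y) = ∑ x ∈ S, ∑ y ∈ S, c x y := by
    rw [← Finset.sum_filter_add_sum_filter_not Finset.univ (fun x => x ∈ S)]
    have e1 : ∑ x ∈ Finset.univ.filter (fun x => x ∉ S), ∑ y,
        (if x ∈ S then (1 : ℝ) else 0) * ((if y ∈ S then (1 : ℝ) else 0) * c x y) = 0 := by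
      refine Finset.sum_eq_zero fun x hx => Finset.sum_eq_zero fun y _ => ?_
      rw [if_neg (Finset.mem_filter.1 hx).2, zero_mul]
    rw [e1, add_zero]
    refine Finset.sum_congr (by ext x; simp) fun x hx => ?_
    have hx' : x ∈ S := hx
    rw [← Finset.sum_filter_add_sum_filter_not Finset.univ (fun y => y ∈ S)]
    have e2 : ∑ y ∈ Finset.univ.filter (fun y => y ∉ S),
        (if x ∈ S then (1 : ℝ) else 0) * ((if y ∈ S then (1 : ℝ) else 0) * c x y) = 0 := by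
      refine Finset.sum_eq_zero fun y hy => ?_
      rw [if_neg (Finset.mem_filter.1 hy).2, zero_mul, mul_zero]
    rw [e2, add_zero]
    refine Finset.sum_congr (by ext y; simp) fun y hy => ?_
    have hy' : y ∈ S := hy
    rw [if_pos hx', if_pos hy', one_mul, one_mul]
  have h5 : ∑ x, ∑ y, c x y * ((if x ∈ S then (1 : ℝ) else 0) - (if y ∈ S then 1 else 0)) ^ 2 =
      ∑ x, ∑ y, (if x ∈ S then (1 : ℝ) else 0) * c x y +
        ∑ x, ∑ y, (if y ∈ S then (1 : ℝ) else 0) * c x y -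
        2 * ∑ x, ∑ y, (if x ∈ S then (1 : ℝ) else 0) *
          ((if y ∈ S then (1 : ℝ) else 0) * c x y) := by
    rw [Finset.mul_sum, ← Finset.sum_add_distrib, ← Finset.sum_sub_distrib]
    refine Finset.sum_congr rfl fun x _ => ?_
    rw [Finset.mul_sum, ← Finset.sum_add_distrib, ← Finset.sum_sub_distrib]
    exact Finset.sum_congr rfl fun y _ => h1 x y
  rw [h5, h2, h3, h4]
  ring

end abs

section torus

variable {d μ : ℕ}

/-- the conductances inside a set `S` of alive sites -/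
theorem lof_set (hd : 3 ≤ d) (J : ℕ) {c : Matrix (Tor d (2 ^ μ)) (Tor d (2 ^ μ)) ℝ}
    {A S : Finset (Tor d (2 ^ μ))} {w : Tor d (2 ^ μ) → ℝ} {b ε ν m : ℝ} (hS : S ⊆ A)
    (hc : ∀ x y, c x y = c y x) (hw : ∀ x ∈ A, 0 < w x) (hε : 0 ≤ ε) (hb : 0 < b)
    (hrow : ∀ x ∈ A, ∑ y, c x y ≤ (1 + ν) * w x)
    (hLB : ∀ f : Tor d (2 ^ μ) → ℝ, ∃ h : Tor d (2 ^ μ) → ℝ,
      ∑ x ∈ A, w x / (1 + ε) * (f x - h x) ^ 2 + b * bon sT tT (fun _ => 1) h ≤
        1 / 2 * ∑ x, ∑ y, c x y * (f x - f y) ^ 2)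
    (hm : 0 < m) (hmA : ∀ x ∈ A, m ≤ w x / (1 + ε))
    (hZ : ((2 : ℝ) ^ μ) ^ d ≤ 4 * ((A \ S).card : ℝ)) :
    ∑ x ∈ S, ∑ y ∈ S, c x y ≤
      (ν + ε) * ∑ x ∈ S, w x + 2 * CS d * 4 ^ J / b * ∑ x ∈ S, w x ^ 2 +
        S0 d μ J b m * (∑ x ∈ S, w x) ^ 2 := by
  set Q : (Tor d (2 ^ μ) → ℝ) → ℝ := fun f => 1 / 2 * ∑ x, ∑ y, c x y * (f x - f y) ^ 2 with hQ
  set al : Tor d (2 ^ μ) → ℝ := fun x => if x ∈ A then w x / (1 + ε) else 0 with hal'
  set f : Tor d (2 ^ μ) → ℝ := fun x => if x ∈ S then 1 else 0 with hf'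
  set φ : Tor d (2 ^ μ) → ℝ := fun x => if x ∈ S then w x else 0 with hφ'
  have hLB' : LB sT tT Q al (fun _ => b) := by
    intro g
    obtain ⟨h, hh⟩ := hLB g
    refine ⟨h, ?_⟩
    unfold mor
    have e1 : ∑ x, al x * (g x - h x) ^ 2 = ∑ x ∈ A, w x / (1 + ε) * (g x - h x) ^ 2 := by
      rw [← Finset.sum_subset (Finset.subset_univ A)]
      · refine Finset.sum_congr rfl fun x hx => ?_
        have : al x = w x / (1 + ε) := if_pos hx
        rw [this]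
      · intro x _ hx
        have : al x = 0 := if_neg hx
        rw [this, zero_mul]
    have e2 : bon sT tT (fun _ => b) h = b * bon sT tT (fun _ => 1) h := by
      unfold bon
      rw [Finset.mul_sum]
      refine Finset.sum_congr rfl fun e _ => ?_
      ring
    rw [e1, e2]
    exact hh
  have halA : ∀ x ∈ A, al x = w x / (1 + ε) := fun x hx => if_pos hx
  have halp : ∀ x ∈ A, 0 < al x := by
    intro x hx
    rw [halA x hx]
    exact div_pos (hw x hx) (by linarith)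
  have hal : ∀ x, 0 ≤ al x := by
    intro x
    by_cases hx : x ∈ A
    · exact (halp x hx).le
    · have : al x = 0 := if_neg hx
      rw [this]
  have hbox : ∀ x : Tor d (2 ^ μ), Box (0 : Tor d (2 ^ μ)) (2 ^ μ) x := fun x i => ZMod.val_lt _
  have h1 := maj hd (0 : Tor d (2 ^ μ)) μ J le_rfl hLB' hal (fun _ => hb.le) hb hm
    (fun _ _ _ => le_rfl) (B := S) (B2 := S) (Z := A \ S) (fun x _ => hbox x)
    (Finset.Subset.refl S) (fun x hx => halp x (hS hx))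
    (fun x hx => ⟨hbox x, (Finset.mem_sdiff.1 hx).2, by
      rw [halA x (Finset.mem_sdiff.1 hx).1]
      exact hmA x (Finset.mem_sdiff.1 hx).1⟩) hZ f φ
    (fun x hx => if_neg hx) (fun x hx => if_neg hx)
  have e0 : Q f = ∑ x ∈ S, (∑ y, c x y) - ∑ x ∈ S, ∑ y ∈ S, c x y := form_ind c hc S
  have e1 : ∑ x, f x * φ x = ∑ x ∈ S, w x := by
    rw [← Finset.sum_subset (Finset.subset_univ S)]
    · refine Finset.sum_congr rfl fun x hx => ?_
      show (if x ∈ S then (1 : ℝ) else 0) * (if x ∈ S then w x else 0) = w x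
      rw [if_pos hx, if_pos hx, one_mul]
    · intro x _ hx
      show (if x ∈ S then (1 : ℝ) else 0) * (if x ∈ S then w x else 0) = 0
      rw [if_neg hx, zero_mul]
  have e2 : ∑ x ∈ S, φ x ^ 2 / al x = (1 + ε) * ∑ x ∈ S, w x := by
    rw [Finset.mul_sum]
    refine Finset.sum_congr rfl fun x hx => ?_
    have h3 : φ x = w x := if_pos hx
    rw [h3, halA x (hS hx)]
    have h4 := hw x (hS hx)
    have h6 : 1 + ε ≠ 0 := by linarith
    field_simp
  have e3 : ∑ x, φ x ^ 2 = ∑ x ∈ S, w x ^ 2 := by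
    rw [← Finset.sum_subset (Finset.subset_univ S)]
    · refine Finset.sum_congr rfl fun x hx => ?_
      have h3 : φ x = w x := if_pos hx
      rw [h3]
    · intro x _ hx
      have h3 : φ x = 0 := if_neg hx
      rw [h3]
      norm_num
  have e4 : ∑ x, |φ x| = ∑ x ∈ S, w x := by
    rw [← Finset.sum_subset (Finset.subset_univ S)]
    · refine Finset.sum_congr rfl fun x hx => ?_
      have h3 : φ x = w x := if_pos hx
      rw [h3, abs_of_pos (hw x (hS hx))]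
    · intro x _ hx
      have h3 : φ x = 0 := if_neg hx
      rw [h3, abs_zero]
  have e5 : ∑ x ∈ S, (∑ y, c x y) ≤ (1 + ν) * ∑ x ∈ S, w x := by
    rw [Finset.mul_sum]
    exact Finset.sum_le_sum fun x hx => hrow x (hS hx)
  rw [e0, e1, e2, e3, e4] at h1
  linarith

/-- the number of the sites of a box -/
theorem card_box (a : Tor d (2 ^ μ)) {L : ℕ} (hL : L ≤ 2 ^ μ) :
    ((Finset.univ.filter fun x => Box a L x).card : ℝ) = (L : ℝ) ^ d := by
  have h1 := MAJ.sum_cu a hL (fun _ => (1 : ℝ))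
  rw [← Finset.sum_filter, Finset.sum_const, Finset.sum_const, NAS.card_cu] at h1
  simp only [nsmul_eq_mul, mul_one] at h1
  rw [h1]
  push_cast
  rfl

/-- the numbers of the constant `S0` -/
theorem s0_le {J : ℕ} {C b m W' W r M : ℝ} (hd : 3 ≤ d) (hC : 0 ≤ C) (hb : 0 < b)
    (hW' : 0 < W') (hm : m = W' / 2) (hr : r = 2 ^ J) (hM : M = 2 ^ μ) (hrM : r ≤ M) :
    (2 * C / b * ((1 / 2 : ℝ) ^ (d - 2)) ^ J + 8 / (m * ((2 : ℝ) ^ μ) ^ d) +
      32 * C * 4 ^ μ / (b * ((2 : ℝ) ^ μ) ^ d)) * (W * r ^ d) ^ 2 ≤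
      r ^ d * W * (34 * (C * W * r ^ 2 / b) + 16 * (W / W' * (r / M) ^ d)) := by
  obtain ⟨e, rfl⟩ : ∃ e, d = e + 2 := ⟨d - 2, by omega⟩
  have hr0 : 0 < r := by rw [hr]; positivity
  have hM0 : 0 < M := by rw [hM]; positivity
  have e0 : e + 2 - 2 = e := by omega
  have e1 : ((1 / 2 : ℝ) ^ (e + 2 - 2)) ^ J = 1 / r ^ e := by
    rw [e0, hr, ← pow_mul, ← pow_mul, one_div, one_div, inv_pow, mul_comm]
  have e2 : (4 : ℝ) ^ μ = M ^ 2 := by
    rw [hM, ← pow_mul, mul_comm, pow_mul]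
    norm_num
  rw [e1, e2, hm, ← hM]
  have hre : 0 < r ^ e := pow_pos hr0 e
  have hMe : 0 < M ^ e := pow_pos hM0 e
  have hle : r ^ e ≤ M ^ e := pow_le_pow_left₀ hr0.le hrM e
  have t1 : 2 * C / b * (1 / r ^ e) * (W * r ^ (e + 2)) ^ 2 =
      r ^ (e + 2) * W * (2 * (C * W * r ^ 2 / b)) := by
    field_simp
    ring
  have t2 : 8 / (W' / 2 * M ^ (e + 2)) * (W * r ^ (e + 2)) ^ 2 =
      r ^ (e + 2) * W * (16 * (W / W' * (r / M) ^ (e + 2))) := by
    rw [div_pow]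
    field_simp
    ring
  have t3 : 32 * C * M ^ 2 / (b * M ^ (e + 2)) * (W * r ^ (e + 2)) ^ 2 =
      r ^ (e + 2) * W ^ 2 * (32 * (C * r ^ 2 / b)) * (r ^ e / M ^ e) := by
    field_simp
    ring
  have t4 : r ^ e / M ^ e ≤ 1 := by
    rw [div_le_one hMe]
    exact hle
  have t5 : 0 ≤ r ^ (e + 2) * W ^ 2 * (32 * (C * r ^ 2 / b)) := by positivity
  have t6 := mul_le_mul_of_nonneg_left t4 t5
  rw [add_mul, add_mul, t1, t2, t3]
  have t7 : r ^ (e + 2) * W ^ 2 * (32 * (C * r ^ 2 / b)) * 1 =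
      r ^ (e + 2) * W * (32 * (C * W * r ^ 2 / b)) := by ring
  rw [t7] at t6
  have t8 : r ^ (e + 2) * W * (34 * (C * W * r ^ 2 / b) + 16 * (W / W' * (r / M) ^ (e + 2))) =
      r ^ (e + 2) * W * (2 * (C * W * r ^ 2 / b)) +
        r ^ (e + 2) * W * (16 * (W / W' * (r / M) ^ (e + 2))) +
        r ^ (e + 2) * W * (32 * (C * W * r ^ 2 / b)) := by ring
  rw [t8]
  linarith

/-- the conductances inside a box of side `2 ^ J`, `J + 3 ≤ μ` -/
theorem lof_box (hd : 3 ≤ d) {J : ℕ} (hJ : J + 3 ≤ μ) (a : Tor d (2 ^ μ))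
    {c : Matrix (Tor d (2 ^ μ)) (Tor d (2 ^ μ)) ℝ}
    {A : Finset (Tor d (2 ^ μ))} {w : Tor d (2 ^ μ) → ℝ} {W W' b ε ν : ℝ}
    (hc : ∀ x y, c x y = c y x) (hW' : 0 < W') (hw : ∀ x ∈ A, W' ≤ w x ∧ w x ≤ W)
    (hb : 0 < b) (hε : 0 ≤ ε) (hε1 : ε ≤ 1 / 2) (hν : 0 ≤ ν)
    (hrow : ∀ x ∈ A, ∑ y, c x y ≤ (1 + ν) * w x)
    (hLB : ∀ f : Tor d (2 ^ μ) → ℝ, ∃ h : Tor d (2 ^ μ) → ℝ,
      ∑ x ∈ A, w x / (1 + ε) * (f x - h x) ^ 2 + b * bon sT tT (fun _ => 1) h ≤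
        1 / 2 * ∑ x, ∑ y, c x y * (f x - f y) ^ 2)
    (hA : ((2 : ℝ) ^ μ) ^ d ≤ 2 * A.card) :
    ∑ x ∈ A.filter (fun x => Box a (2 ^ J) x), ∑ y ∈ A.filter (fun x => Box a (2 ^ J) x),
      c x y ≤ ((2 : ℝ) ^ J) ^ d * W * ((ν + ε) + 36 * (CS d * W * ((2 : ℝ) ^ J) ^ 2 / b) +
        16 * (W / W' * ((2 : ℝ) ^ J / 2 ^ μ) ^ d)) := by
  set S := A.filter (fun x => Box a (2 ^ J) x) with hS
  have hSA : S ⊆ A := Finset.filter_subset _ _
  have hCS : 0 ≤ CS d := NAS.CS_nonneg d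
  have hJμ : (2 : ℕ) ^ J ≤ 2 ^ μ := Nat.pow_le_pow_right (by norm_num) (by omega)
  have hSc : (S.card : ℝ) ≤ ((2 : ℝ) ^ J) ^ d := by
    have h1 : S ⊆ Finset.univ.filter fun x => Box a (2 ^ J) x := fun x hx =>
      Finset.mem_filter.2 ⟨Finset.mem_univ _, (Finset.mem_filter.1 hx).2⟩
    have h2 := card_box a hJμ
    push_cast at h2
    rw [← h2]
    exact_mod_cast Finset.card_le_card h1
  have hr0 : (0 : ℝ) < (2 : ℝ) ^ J := by positivity
  -- the sites off the box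
  have hZ : ((2 : ℝ) ^ μ) ^ d ≤ 4 * ((A \ S).card : ℝ) := by
    have h1 : (A.card : ℝ) = S.card + (A \ S).card := by
      have := Finset.card_sdiff_add_card_eq_card hSA
      have h2 : A.card = S.card + (A \ S).card := by omega
      exact_mod_cast h2
    have h3 : ((2 : ℝ) ^ J) ^ d ≤ ((2 : ℝ) ^ μ) ^ d / 4 := by
      obtain ⟨e, rfl⟩ : ∃ e, μ = J + 3 + e := ⟨μ - (J + 3), by omega⟩
      have e1 : ((2 : ℝ) ^ (J + 3 + e)) ^ d = ((2 : ℝ) ^ J) ^ d * (8 ^ d) * (2 ^ e) ^ d := by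
        rw [pow_add, pow_add, mul_pow, mul_pow]
        norm_num
      rw [e1]
      have e2 : (4 : ℝ) ≤ 8 ^ d := by
        calc (4 : ℝ) ≤ 8 ^ 1 := by norm_num
          _ ≤ 8 ^ d := pow_le_pow_right₀ (by norm_num) (by omega)
      have e3 : (1 : ℝ) ≤ (2 ^ e) ^ d := one_le_pow₀ (one_le_pow₀ (by norm_num))
      have e4 : 0 < ((2 : ℝ) ^ J) ^ d := by positivity
      have e5 : ((2 : ℝ) ^ J) ^ d * 4 * 1 ≤ ((2 : ℝ) ^ J) ^ d * 8 ^ d * (2 ^ e) ^ d :=
        mul_le_mul (mul_le_mul_of_nonneg_left e2 e4.le) e3 (by norm_num) (by positivity)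
      linarith
    linarith
  have hWpos : ∀ x ∈ A, 0 < w x := fun x hx => lt_of_lt_of_le hW' (hw x hx).1
  have hm : ∀ x ∈ A, W' / 2 ≤ w x / (1 + ε) := by
    intro x hx
    rw [div_le_div_iff₀ (by norm_num) (by linarith)]
    have h1 := (hw x hx).1
    nlinarith
  have h1 := lof_set hd J hSA hc hWpos hε hb hrow hLB (by positivity : 0 < W' / 2) hm hZ
  have hne : A.Nonempty := by
    rw [← Finset.card_pos]
    have h2 : (0 : ℝ) < ((2 : ℝ) ^ μ) ^ d := by positivity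
    have h3 : (0 : ℝ) < A.card := by linarith
    exact_mod_cast h3
  obtain ⟨x₀, hx₀⟩ := hne
  have hW : 0 < W := lt_of_lt_of_le (hWpos x₀ hx₀) (hw x₀ hx₀).2
  have s1 : ∑ x ∈ S, w x ≤ W * ((2 : ℝ) ^ J) ^ d := by
    calc ∑ x ∈ S, w x ≤ ∑ _x ∈ S, W := Finset.sum_le_sum fun x hx => (hw x (hSA hx)).2
      _ = W * S.card := by rw [Finset.sum_const, nsmul_eq_mul, mul_comm]
      _ ≤ _ := mul_le_mul_of_nonneg_left hSc hW.le
  have s0 : 0 ≤ ∑ x ∈ S, w x := Finset.sum_nonneg fun x hx => (hWpos x (hSA hx)).le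
  have s2 : ∑ x ∈ S, w x ^ 2 ≤ W ^ 2 * ((2 : ℝ) ^ J) ^ d := by
    calc ∑ x ∈ S, w x ^ 2 ≤ ∑ _x ∈ S, W ^ 2 := Finset.sum_le_sum fun x hx =>
          pow_le_pow_left₀ (hWpos x (hSA hx)).le (hw x (hSA hx)).2 2
      _ = W ^ 2 * S.card := by rw [Finset.sum_const, nsmul_eq_mul, mul_comm]
      _ ≤ _ := mul_le_mul_of_nonneg_left hSc (by positivity)
  have hS0 : 0 ≤ S0 d μ J b (W' / 2) := by
    unfold S0
    positivity
  have t1 : (ν + ε) * ∑ x ∈ S, w x ≤ (ν + ε) * (W * ((2 : ℝ) ^ J) ^ d) :=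
    mul_le_mul_of_nonneg_left s1 (by linarith)
  have t2 : 2 * CS d * 4 ^ J / b * ∑ x ∈ S, w x ^ 2 ≤
      2 * CS d * 4 ^ J / b * (W ^ 2 * ((2 : ℝ) ^ J) ^ d) :=
    mul_le_mul_of_nonneg_left s2 (by positivity)
  have t3 : S0 d μ J b (W' / 2) * (∑ x ∈ S, w x) ^ 2 ≤
      S0 d μ J b (W' / 2) * (W * ((2 : ℝ) ^ J) ^ d) ^ 2 :=
    mul_le_mul_of_nonneg_left (pow_le_pow_left₀ s0 s1 2) hS0
  have t4 := s0_le (d := d) (μ := μ) (J := J) (C := CS d) (b := b) (W' := W') (W := W) hd hCS hb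
    hW' (m := W' / 2) rfl (r := (2 : ℝ) ^ J) rfl (M := (2 : ℝ) ^ μ) rfl (by exact_mod_cast hJμ)
  have t5 : S0 d μ J b (W' / 2) = 2 * CS d / b * ((1 / 2 : ℝ) ^ (d - 2)) ^ J +
      8 / (W' / 2 * ((2 : ℝ) ^ μ) ^ d) + 32 * CS d * 4 ^ μ / (b * ((2 : ℝ) ^ μ) ^ d) := rfl
  rw [← t5] at t4
  have t6 : (4 : ℝ) ^ J = ((2 : ℝ) ^ J) ^ 2 := by
    rw [← pow_mul, mul_comm, pow_mul]
    norm_num
  have t7 : 2 * CS d * 4 ^ J / b * (W ^ 2 * ((2 : ℝ) ^ J) ^ d) =
      ((2 : ℝ) ^ J) ^ d * W * (2 * (CS d * W * ((2 : ℝ) ^ J) ^ 2 / b)) := by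
    rw [t6]
    ring
  rw [t7] at t2
  have t8 : ((2 : ℝ) ^ J) ^ d * W * ((ν + ε) + 36 * (CS d * W * ((2 : ℝ) ^ J) ^ 2 / b) +
        16 * (W / W' * ((2 : ℝ) ^ J / 2 ^ μ) ^ d)) =
      (ν + ε) * (W * ((2 : ℝ) ^ J) ^ d) +
      ((2 : ℝ) ^ J) ^ d * W * (2 * (CS d * W * ((2 : ℝ) ^ J) ^ 2 / b)) +
      ((2 : ℝ) ^ J) ^ d * W * (34 * (CS d * W * ((2 : ℝ) ^ J) ^ 2 / b) +
        16 * (W / W' * ((2 : ℝ) ^ J / 2 ^ μ) ^ d)) := by ring
  rw [t8]
  linarith

/-- one coordinate: the corners of the intervals of length `2 n` which contain two close points -/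
theorem corner1 {M n : ℕ} [NeZero M] (hn : 2 * n ≤ M) (u v : ZMod M)
    (h : ANP.H61.cd u v < n) :
    ∃ m : ZMod M, ∀ s : ℕ, s < n → (u - (m - (s : ZMod M))).val < 2 * n ∧
      (v - (m - (s : ZMod M))).val < 2 * n := by
  obtain ⟨k, hk, hk'⟩ := ANP.H61.exists_int u v
  have key : ∀ (p q : ZMod M) (t : ℕ), t < n → p - q = (t : ZMod M) → ∀ s : ℕ, s < n →
      (p - (q - (s : ZMod M))).val < 2 * n ∧ (q - (q - (s : ZMod M))).val < 2 * n := by
    intro p q t ht hpq s hs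
    have e1 : p - (q - (s : ZMod M)) = ((t + s : ℕ) : ZMod M) := by
      push_cast
      rw [← hpq]
      ring
    have e2 : q - (q - (s : ZMod M)) = ((s : ℕ) : ZMod M) := by ring
    rw [e1, e2, ZMod.val_natCast, ZMod.val_natCast, Nat.mod_eq_of_lt (by omega),
      Nat.mod_eq_of_lt (by omega)]
    omega
  rcases le_total 0 k with hk0 | hk0
  · refine ⟨v, fun s hs => ?_⟩
    have e : ((k.natAbs : ℕ) : ℤ) = k := Int.natAbs_of_nonneg hk0
    have e' : u - v = ((k.natAbs : ℕ) : ZMod M) := by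
      rw [hk, ← Int.cast_natCast (k.natAbs), e]
    exact key u v k.natAbs (by omega) e' s hs
  · refine ⟨u, fun s hs => ?_⟩
    have e : ((k.natAbs : ℕ) : ℤ) = -k := Int.ofNat_natAbs_of_nonpos hk0
    have e' : v - u = ((k.natAbs : ℕ) : ZMod M) := by
      have e3 : v - u = ((-k : ℤ) : ZMod M) := by
        push_cast
        rw [← hk]
        ring
      rw [e3, ← Int.cast_natCast (k.natAbs), e]
    exact (key v u k.natAbs (by omega) e' s hs).symm

/-- two points at a distance smaller than `n` are in at least `n ^ d` boxes of side `2 n` -/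
theorem corners {M n : ℕ} [NeZero M] (hn : 2 * n ≤ M) (x y : Tor d M)
    (h : ANP.H61.sd x y < n) :
    n ^ d ≤ (Finset.univ.filter fun a : Tor d M => Box a (2 * n) x ∧ Box a (2 * n) y).card := by
  have h1 : ∀ i, ∃ m : ZMod M, ∀ s : ℕ, s < n → (x i - (m - (s : ZMod M))).val < 2 * n ∧
      (y i - (m - (s : ZMod M))).val < 2 * n := fun i =>
    corner1 hn (x i) (y i) (lt_of_le_of_lt (ANP.H61.le_sd x y i) h)
  choose m hm using h1
  have hc : Fintype.card (Fin d → Fin n) = n ^ d := by simp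
  rw [← hc, ← Finset.card_univ]
  refine Finset.card_le_card_of_injOn (fun s i => m i - ((s i : ℕ) : ZMod M)) ?_ ?_
  · intro s _
    rw [Finset.mem_coe, Finset.mem_filter]
    exact ⟨Finset.mem_univ _, fun i => (hm i (s i) (s i).2).1, fun i => (hm i (s i) (s i).2).2⟩
  · intro s _ t _ hst
    funext i
    have h2 := congrFun hst i
    simp only at h2
    have h3 : ((s i : ℕ) : ZMod M) = ((t i : ℕ) : ZMod M) := by
      have := sub_right_injective h2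
      exact this
    have h4 := congrArg ZMod.val h3
    rw [ZMod.val_natCast, ZMod.val_natCast, Nat.mod_eq_of_lt (by have := (s i).2; omega),
      Nat.mod_eq_of_lt (by have := (t i).2; omega)] at h4
    exact Fin.ext h4

/-- from the boxes to the pairs -/
theorem pairs_box {M n : ℕ} [NeZero M] (hn : 2 * n ≤ M) (c : Matrix (Tor d M) (Tor d M) ℝ)
    (A : Finset (Tor d M)) (h0 : ∀ x y, 0 ≤ c x y) (hc : ∀ x y, c x y = c y x)
    (hA : ∀ x y, x ∉ A → c x y = 0) :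
    (n : ℝ) ^ d * ∑ x, ∑ y, (if ANP.H61.sd x y < n then c x y else 0) ≤
      ∑ a : Tor d M, ∑ x ∈ A.filter (fun x => Box a (2 * n) x),
        ∑ y ∈ A.filter (fun x => Box a (2 * n) x), c x y := by
  have h1 : ∀ a : Tor d M, ∑ x ∈ A.filter (fun x => Box a (2 * n) x),
      ∑ y ∈ A.filter (fun x => Box a (2 * n) x), c x y =
      ∑ x, ∑ y, (if Box a (2 * n) x ∧ Box a (2 * n) y then c x y else 0) := by
    intro a
    rw [← Finset.sum_subset (Finset.subset_univ (A.filter (fun x => Box a (2 * n) x)))]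
    · refine Finset.sum_congr rfl fun x hx => ?_
      rw [← Finset.sum_subset (Finset.subset_univ (A.filter (fun x => Box a (2 * n) x)))]
      · refine Finset.sum_congr rfl fun y hy => ?_
        rw [if_pos ⟨(Finset.mem_filter.1 hx).2, (Finset.mem_filter.1 hy).2⟩]
      · intro y _ hy
        by_cases hyA : y ∈ A
        · rw [if_neg fun h => hy (Finset.mem_filter.2 ⟨hyA, h.2⟩)]
        · rw [hc x y, hA y x hyA]
          split <;> rfl
    · intro x _ hx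
      refine Finset.sum_eq_zero fun y _ => ?_
      by_cases hxA : x ∈ A
      · rw [if_neg fun h => hx (Finset.mem_filter.2 ⟨hxA, h.1⟩)]
      · rw [hA x y hxA]
        split <;> rfl
  have h2 : ∑ a : Tor d M, ∑ x, ∑ y, (if Box a (2 * n) x ∧ Box a (2 * n) y then c x y else 0) =
      ∑ x, ∑ y, ∑ a : Tor d M, (if Box a (2 * n) x ∧ Box a (2 * n) y then c x y else 0) := by
    rw [Finset.sum_comm]
    exact Finset.sum_congr rfl fun x _ => Finset.sum_comm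
  rw [Finset.sum_congr rfl fun a _ => h1 a, h2, Finset.mul_sum]
  refine Finset.sum_le_sum fun x _ => ?_
  rw [Finset.mul_sum]
  refine Finset.sum_le_sum fun y _ => ?_
  rw [← Finset.sum_filter, Finset.sum_const, nsmul_eq_mul]
  by_cases hxy : ANP.H61.sd x y < n
  · rw [if_pos hxy]
    refine mul_le_mul_of_nonneg_right ?_ (h0 x y)
    exact_mod_cast corners hn x y hxy
  · rw [if_neg hxy, mul_zero]
    exact mul_nonneg (Nat.cast_nonneg _) (h0 x y)

/-- the sum over all pairs, crude -/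
theorem lof_triv {c : Matrix (Tor d (2 ^ μ)) (Tor d (2 ^ μ)) ℝ}
    {A : Finset (Tor d (2 ^ μ))} {w : Tor d (2 ^ μ) → ℝ} {W ν : ℝ} (hW : 0 ≤ W) (hν : 0 ≤ ν)
    (h0 : ∀ x y, 0 ≤ c x y) (hA : ∀ x y, x ∉ A → c x y = 0) (hw : ∀ x ∈ A, w x ≤ W)
    (hrow : ∀ x ∈ A, ∑ y, c x y ≤ (1 + ν) * w x) (n : ℕ) :
    ∑ x, ∑ y, (if ANP.H61.sd x y < n then c x y else 0) ≤ ((2 : ℝ) ^ μ) ^ d * ((1 + ν) * W) := by
  have h1 : ∀ x, ∑ y, (if ANP.H61.sd x y < n then c x y else 0) ≤ (1 + ν) * W := by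
    intro x
    have h2 : ∑ y, (if ANP.H61.sd x y < n then c x y else 0) ≤ ∑ y, c x y := by
      refine Finset.sum_le_sum fun y _ => ?_
      split
      · exact le_rfl
      · exact h0 x y
    refine h2.trans ?_
    by_cases hx : x ∈ A
    · exact (hrow x hx).trans (mul_le_mul_of_nonneg_left (hw x hx) (by linarith))
    · rw [Finset.sum_eq_zero fun y _ => hA x y hx]
      positivity
  calc ∑ x, ∑ y, (if ANP.H61.sd x y < n then c x y else 0) ≤
      ∑ _x : Tor d (2 ^ μ), (1 + ν) * W := Finset.sum_le_sum fun x _ => h1 x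
    _ = ((2 : ℝ) ^ μ) ^ d * ((1 + ν) * W) := by
      rw [Finset.sum_const, nsmul_eq_mul, Finset.card_univ]
      congr 1
      rw [Fintype.card_fun, ZMod.card, Fintype.card_fin]
      push_cast
      rfl

end torus

/-- LOF -/
theorem lof : LofStmt := by
  intro d hd
  refine ⟨8 ^ d * (144 * CS d + 17), ?_, ?_⟩
  · have h1 : (1 : ℝ) ≤ 8 ^ d := one_le_pow₀ (by norm_num)
    have h2 : 0 ≤ CS d := NAS.CS_nonneg d
    nlinarith
  intro μ j c A w W W' b ε ν hjμ h0 hc hcA hW' hw hb hε hε1 hν hrow hLB hA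
  have hCS : 0 ≤ CS d := NAS.CS_nonneg d
  have hne : A.Nonempty := by
    rw [← Finset.card_pos]
    have h2 : (0 : ℝ) < ((2 : ℝ) ^ μ) ^ d := by positivity
    have h3 : (0 : ℝ) < A.card := by linarith
    exact_mod_cast h3
  obtain ⟨x₀, hx₀⟩ := hne
  have hW : 0 < W := lt_of_lt_of_le (lt_of_lt_of_le hW' (hw x₀ hx₀).1) (hw x₀ hx₀).2
  have hWW : 1 ≤ W / W' := by
    rw [one_le_div hW']
    exact (hw x₀ hx₀).1.trans (hw x₀ hx₀).2
  have hM : 0 < ((2 : ℝ) ^ μ) ^ d := by positivity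
  set X : ℝ := W * 4 ^ j / b with hX
  set Y : ℝ := W / W' * ((2 : ℝ) ^ j / 2 ^ μ) ^ d with hY
  have hX0 : 0 ≤ X := by positivity
  have hY0 : 0 ≤ Y := by positivity
  have h8 : (1 : ℝ) ≤ 8 ^ d := one_le_pow₀ (by norm_num)
  by_cases hj : j + 4 ≤ μ
  · -- boxes
    have hn : 2 * 2 ^ j ≤ 2 ^ μ := by
      calc 2 * 2 ^ j = 2 ^ (j + 1) := by rw [pow_succ]; ring
        _ ≤ 2 ^ μ := Nat.pow_le_pow_right (by norm_num) (by omega)
    have h1 := pairs_box (d := d) (M := 2 ^ μ) (n := 2 ^ j) hn c A h0 hc hcA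
    have h2 : ∀ a : Tor d (2 ^ μ), ∑ x ∈ A.filter (fun x => Box a (2 * 2 ^ j) x),
        ∑ y ∈ A.filter (fun x => Box a (2 * 2 ^ j) x), c x y ≤
        ((2 : ℝ) ^ (j + 1)) ^ d * W * ((ν + ε) + 36 * (CS d * W * ((2 : ℝ) ^ (j + 1)) ^ 2 / b) +
        16 * (W / W' * ((2 : ℝ) ^ (j + 1) / 2 ^ μ) ^ d)) := by
      intro a
      have e : 2 * 2 ^ j = 2 ^ (j + 1) := by rw [pow_succ]; ring
      rw [e]
      exact lof_box hd (by omega) a hc hW' hw hb hε hε1 hν hrow hLB hA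
    have h3 := h1.trans (Finset.sum_le_sum fun a _ => h2 a)
    rw [Finset.sum_const, nsmul_eq_mul, Finset.card_univ, Fintype.card_fun, ZMod.card,
      Fintype.card_fin] at h3
    push_cast at h3
    have e1 : ((2 : ℝ) ^ (j + 1)) ^ d = ((2 : ℝ) ^ j) ^ d * 2 ^ d := by
      rw [pow_succ, mul_pow]
    have e2 : CS d * W * ((2 : ℝ) ^ (j + 1)) ^ 2 / b = 4 * CS d * X := by
      have : (4 : ℝ) ^ j = ((2 : ℝ) ^ j) ^ 2 := by
        rw [← pow_mul, mul_comm, pow_mul]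
        norm_num
      rw [hX, this, pow_succ]
      ring
    have e3 : W / W' * ((2 : ℝ) ^ (j + 1) / 2 ^ μ) ^ d = 2 ^ d * Y := by
      rw [hY, pow_succ]
      have : (2 : ℝ) ^ j * 2 / 2 ^ μ = 2 * (2 ^ j / 2 ^ μ) := by ring
      rw [this, mul_pow]
      ring
    rw [e1, e2, e3] at h3
    have hp : 0 < ((2 : ℝ) ^ j) ^ d := by positivity
    have h4 : ((2 : ℝ) ^ j) ^ d * ∑ x, ∑ y, (if ANP.H61.sd x y < 2 ^ j then c x y else 0) ≤
        ((2 : ℝ) ^ j) ^ d * (((2 : ℝ) ^ μ) ^ d * (2 ^ d * W *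
          ((ν + ε) + 36 * (4 * CS d * X) + 16 * (2 ^ d * Y)))) := by
      refine h3.trans (le_of_eq ?_)
      ring
    have h5 := le_of_mul_le_mul_left h4 hp
    refine h5.trans ?_
    have e4 : (2 : ℝ) ^ d ≤ 8 ^ d := pow_le_pow_left₀ (by norm_num) (by norm_num) d
    have e5 : (2 : ℝ) ^ d * 2 ^ d ≤ 8 ^ d := by
      rw [← mul_pow]
      exact pow_le_pow_left₀ (by norm_num) (by norm_num) d
    have t1 : (2 : ℝ) ^ d * ((ν + ε) + 36 * (4 * CS d * X) + 16 * (2 ^ d * Y)) ≤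
        8 ^ d * (144 * CS d + 17) * (ε + ν + X + Y) := by
      have a1 : (2 : ℝ) ^ d * (ν + ε) ≤ 8 ^ d * (ν + ε) :=
        mul_le_mul_of_nonneg_right e4 (by linarith)
      have a2 : (2 : ℝ) ^ d * (CS d * X) ≤ 8 ^ d * (CS d * X) :=
        mul_le_mul_of_nonneg_right e4 (by positivity)
      have a3 : (2 : ℝ) ^ d * 2 ^ d * Y ≤ 8 ^ d * Y := mul_le_mul_of_nonneg_right e5 hY0
      have a4 : 0 ≤ (8 : ℝ) ^ d * (CS d * (ε + ν + Y)) := by positivity
      have a5 : 0 ≤ (8 : ℝ) ^ d * X := by positivity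
      have a6 : 0 ≤ (8 : ℝ) ^ d * Y := by positivity
      have a7 : 0 ≤ (8 : ℝ) ^ d * (ε + ν) := by positivity
      nlinarith
    have t2 : 0 ≤ ((2 : ℝ) ^ μ) ^ d * W := by positivity
    have t3 := mul_le_mul_of_nonneg_left t1 t2
    calc ((2 : ℝ) ^ μ) ^ d * (2 ^ d * W * ((ν + ε) + 36 * (4 * CS d * X) + 16 * (2 ^ d * Y))) =
        ((2 : ℝ) ^ μ) ^ d * W * (2 ^ d * ((ν + ε) + 36 * (4 * CS d * X) + 16 * (2 ^ d * Y))) := by
          ring
      _ ≤ ((2 : ℝ) ^ μ) ^ d * W * (8 ^ d * (144 * CS d + 17) * (ε + ν + X + Y)) := t3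
      _ = _ := by ring
  · -- large distances
    have h1 := lof_triv (d := d) (μ := μ) hW.le hν h0 hcA (fun x hx => (hw x hx).2) hrow (2 ^ j)
    refine h1.trans ?_
    have e1 : (1 : ℝ) / 8 ≤ 2 ^ j / 2 ^ μ := by
      rw [div_le_div_iff₀ (by norm_num) (by positivity)]
      have : (2 : ℝ) ^ μ ≤ 2 ^ (j + 3) := pow_le_pow_right₀ (by norm_num) (by omega)
      rw [pow_add] at this
      linarith
    have e2 : 1 ≤ 8 ^ d * Y := by
      have h3 : ((1 : ℝ) / 8) ^ d ≤ ((2 : ℝ) ^ j / 2 ^ μ) ^ d :=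
        pow_le_pow_left₀ (by norm_num) e1 d
      have h4 : ((1 : ℝ) / 8) ^ d ≤ Y := by
        calc ((1 : ℝ) / 8) ^ d ≤ 1 * ((2 : ℝ) ^ j / 2 ^ μ) ^ d := by rw [one_mul]; exact h3
          _ ≤ Y := mul_le_mul_of_nonneg_right hWW (by positivity)
      have h5 := mul_le_mul_of_nonneg_left h4 (by positivity : (0 : ℝ) ≤ 8 ^ d)
      rw [one_div, inv_pow, mul_inv_cancel₀ (by positivity)] at h5
      exact h5
    have t1 : 1 + ν ≤ 8 ^ d * (144 * CS d + 17) * (ε + ν + X + Y) := by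
      have a1 : ν ≤ 8 ^ d * ν := by nlinarith
      have a4 : 0 ≤ (8 : ℝ) ^ d * (CS d * (ε + ν + X + Y)) := by positivity
      have a5 : 0 ≤ (8 : ℝ) ^ d * (ε + X) := by positivity
      nlinarith
    have t3 := mul_le_mul_of_nonneg_left t1 (by positivity : 0 ≤ ((2 : ℝ) ^ μ) ^ d * W)
    calc ((2 : ℝ) ^ μ) ^ d * ((1 + ν) * W) = ((2 : ℝ) ^ μ) ^ d * W * (1 + ν) := by ring
      _ ≤ ((2 : ℝ) ^ μ) ^ d * W * (8 ^ d * (144 * CS d + 17) * (ε + ν + X + Y)) := t3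
      _ = _ := by ring

end Pool.Agent.QDA.H76
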