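import Pool.Agent.Helper76_QDA.Tav
import Pool.Agent.Helper42_Mob.Fin

/-!
# QDA, row HND: the bridge to the literal definitions
-/

set_option autoImplicit false

open MeasureTheory ProbabilityTheory Function Filter

open scoped BigOperators NNReal ENNReal Matrix InnerProductSpace Topology

noncomputable section

namespace Pool.Agent.QDA.H76

open Pool.Agent.Anderson hiding box mem_box card_box
open Pool.Agent.Loc Pool.Agent.Mob Pool.Agent.Helper54.Bal
  Pool.Agent.Helper96.EXP Pool.Agent.BED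

variable {d : ℕ}

/-- the law of `σ ξ` on the lattice -/
theorem map_gauss (d : ℕ) (σ : ℝ) :
    (Measure.infinitePi fun _ : Site d => gaussianReal 0 1).map
      (fun (ξ : Site d → ℝ) y => σ * ξ y) = PP d (gl σ) := by
  have hm : ∀ y : Site d, Measurable fun ξ : Site d → ℝ => ξ y := fun y => measurable_pi_apply y
  have hlaw : ∀ y : Site d, (Measure.infinitePi fun _ : Site d => gaussianReal 0 1).map
      (fun ξ => ξ y) = gaussianReal 0 1 := fun y =>
    (measurePreserving_eval_infinitePi (fun _ : Site d => gaussianReal 0 1) y).map_eq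
  have hind : iIndepFun (fun (y : Site d) (ξ : Site d → ℝ) => ξ y)
      (Measure.infinitePi fun _ : Site d => gaussianReal 0 1) :=
    iIndepFun_infinitePi (P := fun _ : Site d => gaussianReal 0 1) (X := fun _ t => t)
      (fun _ => measurable_id)
  exact Pool.Agent.Mob.H42.map_eq_PP hm hlaw hind σ

theorem meas_mul {ι : Type} (σ : ℝ) : Measurable fun (ξ : ι → ℝ) y => σ * ξ y := by
  refine measurable_pi_lambda _ fun x => ?_
  have h : Measurable fun ξ : ι → ℝ => ξ x := measurable_pi_apply x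
  exact h.const_mul σ

/-- sets of potentials -/
theorem set_le (d : ℕ) (σ : ℝ) (A : Set (Site d → ℝ)) {b : ℝ≥0∞} (h : PP d (gl σ) A ≤ b) :
    (Measure.infinitePi fun _ : Site d => gaussianReal 0 1)
      {ξ : Site d → ℝ | (fun y => σ * ξ y) ∈ A} ≤ b := by
  rw [← map_gauss d σ] at h
  exact (Measure.le_map_apply (meas_mul σ).aemeasurable A).trans h

/-- the distance to the origin is the norm -/
theorem sd_norm (x : Site d) : (sd 0 x : ℝ) = ‖x‖ := by
  have h1 : ∀ i, ((x i).natAbs : ℝ) = ‖x i‖ := by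
    intro i
    rw [Int.norm_eq_abs, ← Int.cast_abs, Int.abs_eq_natAbs, Int.cast_natCast]
  refine le_antisymm ?_ ?_
  · have h2 : ∃ n : ℕ, sd 0 x = n := ⟨_, rfl⟩
    by_cases hd : Nonempty (Fin d)
    · obtain ⟨i, -, hi⟩ := Finset.exists_mem_eq_sup (Finset.univ : Finset (Fin d))
        Finset.univ_nonempty (fun i => ((0 : Site d) i - x i).natAbs)
      have h3 : sd 0 x = (x i).natAbs := by
        unfold sd
        rw [hi]
        simp
      rw [h3, h1]
      exact norm_le_pi_norm x i
    · have h3 : sd 0 x = 0 := by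
        unfold sd
        rw [Finset.univ_eq_empty_iff.2 (not_nonempty_iff.1 hd)]
        simp
      rw [h3]
      simp
  · refine (pi_norm_le_iff_of_nonneg (Nat.cast_nonneg _)).2 fun i => ?_
    rw [← h1]
    have h4 : ((0 : Site d) i - x i).natAbs ≤ sd 0 x :=
      Finset.le_sup (f := fun i => ((0 : Site d) i - x i).natAbs) (Finset.mem_univ i)
    have h5 : ((0 : Site d) i - x i).natAbs = (x i).natAbs := by simp
    rw [h5] at h4
    exact_mod_cast h4

theorem del_apply (x y : Site d) : (del x : L2 d) y = if y = x then 1 else 0 := by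
  unfold del
  rw [lp.single_apply]
  by_cases h : y = x
  · subst h
    simp
  · rw [if_neg h]
    simp [h]

/-- the Green function -/
theorem green (V : Site d → ℝ) (z : ℂ) (hz : 0 < z.im) :
    (Summable (fun y => ‖G V z (del 0) y‖ ^ 2) ∧
      ∀ y, lap (fun y => G V z (del 0) y) y + ((V y : ℂ) - z) * G V z (del 0) y =
        if y = 0 then 1 else 0) ∧
    ∀ g : Site d → ℂ, Summable (fun y => ‖g y‖ ^ 2) →
      (∀ y, lap g y + ((V y : ℂ) - z) * g y = if y = 0 then 1 else 0) →
        g = fun y => G V z (del 0) y := by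
  refine ⟨⟨?_, fun y => ?_⟩, fun g hg hg2 => ?_⟩
  · have h1 := (lp.memℓp (G V z (del 0))).summable (by norm_num)
    refine h1.congr fun y => ?_
    norm_num
  · rw [← del_apply 0 y]
    exact G_eq hz.ne' (del 0) y
  · have hmem : Memℓp g 2 := by
      rw [memℓp_gen_iff (by norm_num)]
      refine hg.congr fun y => ?_
      norm_num
    have h2 : (⟨g, hmem⟩ : L2 d) = G V z (del 0) := by
      apply G_unique hz.ne'
      intro y
      rw [del_apply 0 y]
      exact hg2 y
    funext y
    rw [← h2]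

/-- the time evolution, the initial value written out -/
theorem evolution_iff (V : Site d → ℝ) (ψ : ℝ → L2 d) :
    (Continuous ψ ∧ (∀ x, ψ 0 x = if x = 0 then 1 else 0) ∧
      ∀ t x, HasDerivAt (fun s => ψ s x) (-Complex.I * (lap (ψ t) x + (V x : ℂ) * ψ t x)) t) ↔
    IsEvolution V ψ := by
  unfold IsEvolution
  refine and_congr_right fun _ => and_congr_left fun _ => ?_
  constructor
  · intro h
    ext x
    rw [h x, del_apply]
  · intro h x
    rw [h, del_apply]

theorem measGz (z : ℂ) (hz : 0 < z.im) (y : Site d) :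
    Measurable fun V : Site d → ℝ => G V z (del 0) y := by
  have h := measG (d := d) z.re hz y
  have e : zz z.im z.re = z := by
    apply Complex.ext <;> simp [zz]
  rw [e] at h
  exact h

theorem zz_mk (η E : ℝ) : zz η E = ⟨E, η⟩ := by
  apply Complex.ext <;> simp [zz]

/-- the mass outside the annulus on the good event -/
theorem good_out {V : Site d → ℝ} {E T ε : ℝ} {r R : ℕ} (hT : 0 < T) (hε : 0 ≤ ε)
    {S : Set (Site d)} (hS : S ⊆ nf d r R)
    (h : ¬ BadZM V E (1 / T) (g0 d (zz (1 / T) E)) (ε / 2) r R) :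
    ‖G V ⟨E, 1 / T⟩ (del 0) 0 - G (0 : Site d → ℝ) ⟨E, 1 / T⟩ (del 0) 0‖ ≤ ε / 2 ∧
    ∑' x : S, ENNReal.ofReal (‖G V ⟨E, 1 / T⟩ (del 0) x‖ ^ 2 / T) ≤ ENNReal.ofReal ε := by
  have hη : 0 < 1 / T := by positivity
  have h1 : mm S (1 / T) V E ≤ ENNReal.ofReal (2 * (ε / 2)) :=
    (mm_mono hS _ V E).trans (mm_good hη (by linarith) h)
  have h2 : ‖G V (zz (1 / T) E) (del 0) 0 - g0 d (zz (1 / T) E)‖ ≤ ε / 2 := by
    by_contra hc
    exact h (Or.inl (not_le.1 hc))
  unfold g0 at h2
  rw [zz_mk] at h2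
  refine ⟨h2, ?_⟩
  have e1 := tsum_subtype S (fun x => ENNReal.ofReal (‖G V ⟨E, 1 / T⟩ (del 0) x‖ ^ 2 / T))
  rw [e1]
  have e2 : 2 * (ε / 2) = ε := by ring
  rw [e2] at h1
  refine le_trans (le_of_eq ?_) h1
  unfold mm
  rw [zz_mk]
  have e3 : (fun x : Site d => ENNReal.ofReal (‖G V ⟨E, 1 / T⟩ (del 0) x‖ ^ 2 / T)) =
      fun x => ENNReal.ofReal (1 / T * ‖G V ⟨E, 1 / T⟩ (del 0) x‖ ^ 2) := by
    funext x
    congr 1
    ring
  rw [e3]

end Pool.Agent.QDA.H76
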