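import Pool.Agent.Helper76_QDA.Brg

/-!
# QDA, row HND: the time evolution, elementary form
-/

set_option autoImplicit false

open MeasureTheory ProbabilityTheory Function Filter

open scoped BigOperators NNReal ENNReal Matrix InnerProductSpace Topology

noncomputable section

namespace Pool.Agent.QDA.H76

open Pool.Agent.Anderson hiding box mem_box card_box
open Pool.Agent.Loc Pool.Agent.Mob Pool.Agent.Helper54.Bal
  Pool.Agent.Helper96.EXP Pool.Agent.BED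

variable {d : ℕ}

/-- the evolution with values in the functions -/
def Evo (V : Site d → ℝ) (ψ : ℝ → Site d → ℂ) : Prop :=
  (∀ t, Summable fun x => ‖ψ t x‖ ^ 2) ∧
  (∀ t, Tendsto (fun s => ∑' x, ‖ψ s x - ψ t x‖ ^ 2) (𝓝 t) (𝓝 0)) ∧
  (∀ x, ψ 0 x = if x = 0 then 1 else 0) ∧
    ∀ t x, HasDerivAt (fun s => ψ s x) (-Complex.I * (lap (ψ t) x + V x * ψ t x)) t

theorem evo_of {V : Site d → ℝ} {φ : ℝ → L2 d} (h : IsEvolution V φ) :
    Evo V fun t x => φ t x := by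
  have h' := (evolution_iff V φ).2 h
  refine ⟨fun t => H30.summable_sq (φ t), fun t => ?_, h'.2.1, h'.2.2⟩
  have e : ∀ s, ∑' x, ‖φ s x - φ t x‖ ^ 2 = ‖φ s - φ t‖ ^ 2 := by
    intro s
    rw [H30.norm_sq]
    refine tsum_congr fun x => ?_
    rw [lp.coeFn_sub, Pi.sub_apply]
  simp only [e]
  have h1 : Tendsto (fun s => ‖φ s - φ t‖) (𝓝 t) (𝓝 0) :=
    tendsto_iff_norm_sub_tendsto_zero.1 (h.1.tendsto t)
  have h2 := h1.pow 2
  simpa using h2

theorem evo_lift {V : Site d → ℝ} {ψ : ℝ → Site d → ℂ} (h : Evo V ψ) :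
    ∃ φ : ℝ → L2 d, IsEvolution V φ ∧ ∀ t x, φ t x = ψ t x := by
  obtain ⟨h1, h2, h3, h4⟩ := h
  have hmem : ∀ t, Memℓp (ψ t) 2 := by
    intro t
    rw [memℓp_gen_iff (by norm_num)]
    refine (h1 t).congr fun y => ?_
    norm_num
  refine ⟨fun t => ⟨ψ t, hmem t⟩, ?_, fun t x => rfl⟩
  rw [← evolution_iff]
  refine ⟨?_, h3, h4⟩
  rw [continuous_iff_continuousAt]
  intro t
  show Tendsto (fun s => (⟨ψ s, hmem s⟩ : L2 d)) (𝓝 t) (𝓝 ⟨ψ t, hmem t⟩)
  rw [tendsto_iff_norm_sub_tendsto_zero]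
  have e : ∀ s, ‖(⟨ψ s, hmem s⟩ : L2 d) - ⟨ψ t, hmem t⟩‖ =
      Real.sqrt (∑' x, ‖ψ s x - ψ t x‖ ^ 2) := by
    intro s
    rw [← Real.sqrt_sq (norm_nonneg ((⟨ψ s, hmem s⟩ : L2 d) - ⟨ψ t, hmem t⟩)), H30.norm_sq]
    rfl
  simp only [e]
  have h5 := (Real.continuous_sqrt.tendsto 0).comp (h2 t)
  rw [Real.sqrt_zero] at h5
  exact h5

/-- existence and uniqueness -/
theorem evo_evol (V : Site d → ℝ) : Evo V fun t x => evol V t x :=
  evo_of (isEvolution_evol V)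

theorem evo_unique {V : Site d → ℝ} {ψ : ℝ → Site d → ℂ} (h : Evo V ψ) :
    ψ = fun t x => evol V t x := by
  obtain ⟨φ, h1, h2⟩ := evo_lift h
  have h3 : φ = evol V := evol_unique (isEvolution_evol V) h1
  funext t x
  rw [← h2, h3]

end Pool.Agent.QDA.H76
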