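import Pool.Agent.Helper76_QDA.Done1
import Pool.Agent.Helper30_QDA.QlmT
import Pool.Agent.Helper41_QDA.Fre

/-!
# QDA: all times `T ≥ |σ|^{-3}`, without hypotheses
-/

set_option autoImplicit false

noncomputable section

namespace Pool.Agent.QDA.H76

theorem qamT : QamStmt := H79.qam qzmT (H30.qlmT H24.guc)

theorem freT : FreStmt := H41.fre H24.guc

end Pool.Agent.QDA.H76
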