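import Pool.Agent.Helper76_QDA.Qkm
import Pool.Agent.Helper79_QDA.Qam
import Pool.Agent.Helper34_QDA.Phm
import Pool.Agent.Helper72_QDA.AllM
import Pool.Agent.Helper36_QDA.Trm
import Pool.Agent.Helper30_QDA.Ptm
import Pool.Agent.Helper24_QDA.Guc

/-!
# QDA: all large times, without hypotheses
-/

set_option autoImplicit false

noncomputable section

namespace Pool.Agent.QDA.H76

theorem phmT : PhmStmt := H34P.phm H72.edmT

theorem qzmT : QzmStmt := H79.fiqm phmT H36.trm H30.ptm H24.guc

theorem qkmT : QkmStmt := qkm phmT H36.trm H30.ptm H24.guc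

end Pool.Agent.QDA.H76
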