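import Pool.Agent.Helper76_QDA.Qkm
import Pool.Agent.Helper76_QDA.Brg

/-!
# QDA, row HND: the two forms of the outer radius
-/

set_option autoImplicit false

open MeasureTheory ProbabilityTheory Function Filter

open scoped BigOperators NNReal ENNReal Matrix InnerProductSpace Topology

noncomputable section

namespace Pool.Agent.QDA.H76

open Pool.Agent.Anderson hiding box mem_box card_box
open Pool.Agent.Loc Pool.Agent.Mob Pool.Agent.Helper54.Bal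
  Pool.Agent.Helper96.EXP Pool.Agent.BED

/-- the condition on the outer radius -/
def Rad (P K σ T R : ℝ) : Prop :=
  |σ| ^ (-(101 / 100) : ℝ) * Real.sqrt T ≤ R ∨ |σ| ^ (-P) ≤ T ∧ K * |σ|⁻¹ * Real.sqrt T ≤ R

theorem Rad.mono {P P' K K' σ T R : ℝ} (hσ : σ ≠ 0) (hσ1 : |σ| ≤ 1) (hP : P' ≤ P) (hK : K' ≤ K)
    (h : Rad P K σ T R) : Rad P' K' σ T R := by
  rcases h with h | ⟨h1, h2⟩
  · exact Or.inl h
  · refine Or.inr ⟨?_, ?_⟩
    · exact (Real.rpow_le_rpow_of_exponent_ge (abs_pos.2 hσ) hσ1 (by linarith)).trans h1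
    · refine le_trans ?_ h2
      have h3 : 0 ≤ |σ|⁻¹ * Real.sqrt T := by positivity
      have h4 := mul_le_mul_of_nonneg_right hK h3
      linarith [mul_assoc K' |σ|⁻¹ (Real.sqrt T), mul_assoc K |σ|⁻¹ (Real.sqrt T)]

/-- the sites which are near or far, real radii -/
def outR (d : ℕ) (r R : ℝ) : Set (Site d) := {x | ‖x‖ ≤ r ∨ R ≤ ‖x‖}

theorem outR_sub (d : ℕ) {s T R R' : ℝ} (hs : 0 < s) (hs1 : s ≤ 1)
    (hs2 : 2 ≤ s ^ (-(1 / 125) : ℝ)) (hT : s ^ (-3 : ℝ) ≤ T) (hR0 : 0 ≤ R') (hR : R' ≤ R) :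
    outR d (s ^ (-(99 / 100) : ℝ) * Real.sqrt T) R ⊆
      nf d ⌊s ^ (1 / 500 - 1 : ℝ) * Real.sqrt T⌋₊ ⌊R'⌋₊ := by
  intro x hx
  rcases hx with hx | hx
  · left
    by_cases h : x ∈ nf d ⌊s ^ (1 / 500 - 1 : ℝ) * Real.sqrt T⌋₊
        (max ⌊s ^ (-(1 / 500) - 1 : ℝ) * Real.sqrt T⌋₊ (sd 0 x + 1))
    · rcases h with h | h
      · exact h
      · exact absurd ((le_max_right _ _).trans h) (by omega)
    · exfalso
      apply h
      have h1 := nf_of (d := d) hs hs1 hs2 hT (x := x) (Or.inl (by rw [sd_norm]; exact hx))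
      rcases h1 with h1 | h1
      · exact Or.inl h1
      · exfalso
        have h2 : s ^ (-(1 / 500) - 1 : ℝ) * Real.sqrt T < (sd 0 x : ℝ) + 1 := by
          have h3 := Nat.lt_floor_add_one (s ^ (-(1 / 500) - 1 : ℝ) * Real.sqrt T)
          have h4 : ((⌊s ^ (-(1 / 500) - 1 : ℝ) * Real.sqrt T⌋₊ : ℕ) : ℝ) ≤ sd 0 x := by
            exact_mod_cast h1
          linarith
        have h5 : s ^ (-(99 / 100) : ℝ) * Real.sqrt T + 1 ≤
            s ^ (-(1 / 500) - 1 : ℝ) * Real.sqrt T := by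
          have e1 : s ^ (-(1 / 500) - 1 : ℝ) = s ^ (-(99 / 100) : ℝ) * s ^ (-(3 / 250) : ℝ) := by
            rw [← Real.rpow_add hs]
            norm_num
          have e2 : s ^ (-(1 / 125) : ℝ) ≤ s ^ (-(3 / 250) : ℝ) :=
            Real.rpow_le_rpow_of_exponent_ge hs hs1 (by norm_num)
          have e3 : 1 ≤ s ^ (-(99 / 100) : ℝ) :=
            Real.one_le_rpow_of_pos_of_le_one_of_nonpos hs hs1 (by norm_num)
          have e4 : 1 ≤ T := (Real.one_le_rpow_of_pos_of_le_one_of_nonpos hs hs1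
            (by norm_num : (-3 : ℝ) ≤ 0)).trans hT
          have e5 : 1 ≤ Real.sqrt T := Real.one_le_sqrt.2 e4
          have e6 : 1 ≤ s ^ (-(99 / 100) : ℝ) * Real.sqrt T := aux_one e3 e5
          have e7 : 2 * (s ^ (-(99 / 100) : ℝ) * Real.sqrt T) ≤
              s ^ (-(3 / 250) : ℝ) * (s ^ (-(99 / 100) : ℝ) * Real.sqrt T) :=
            mul_le_mul_of_nonneg_right (hs2.trans e2) (by linarith)
          rw [e1]
          have e8 : s ^ (-(99 / 100) : ℝ) * s ^ (-(3 / 250) : ℝ) * Real.sqrt T =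
              s ^ (-(3 / 250) : ℝ) * (s ^ (-(99 / 100) : ℝ) * Real.sqrt T) := by ring
          rw [e8]
          linarith
        have h6 : (sd 0 x : ℝ) ≤ s ^ (-(99 / 100) : ℝ) * Real.sqrt T := by
          rw [sd_norm]; exact hx
        linarith
  · right
    have h1 : ((⌊R'⌋₊ : ℕ) : ℝ) ≤ sd 0 x := by
      rw [sd_norm]
      exact (Nat.floor_le hR0).trans (hR.trans hx)
    exact_mod_cast h1

/-- both forms of the outer radius -/
theorem fin (hQ : QamStmt) (hK : QkmStmt) (d : ℕ) (a ε : ℝ) (hd : 3 ≤ d) (ha : 0 < a)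
    (hε : 0 < ε) :
    ∃ s P K : ℝ, 0 < s ∧ s ≤ 1 ∧ 1 ≤ P ∧ 1 ≤ K ∧
      ∀ σ T R : ℝ, σ ≠ 0 → |σ| ≤ s → |σ| ^ (-3 : ℝ) ≤ T → Rad P K σ T R →
        ∃ r' R' : ℕ, outR d (|σ| ^ (-(99 / 100) : ℝ) * Real.sqrt T) R ⊆ nf d r' R' ∧
          ∀ E : ℝ, |E| ≤ 2 * d - a →
            PP d (gl σ) {V | BadZM V E (1 / T) (g0 d (zz (1 / T) E)) ε r' R'} ≤
              ENNReal.ofReal ε := by
  obtain ⟨s₁, hs₁, hs₁1, h1⟩ := hQ d a ε hd ha hε
  obtain ⟨s₂, P, K, hs₂, hs₂1, hP, hK1, h2⟩ := hK d a ε hd ha hε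
  obtain ⟨s₃, hs₃, hs₃1, h125⟩ := exists_s125
  refine ⟨min s₁ (min s₂ s₃), P, K, lt_min hs₁ (lt_min hs₂ hs₃), (min_le_left _ _).trans hs₁1,
    hP, hK1, fun σ T R hσ hσs hT hR => ?_⟩
  have hσ0 : 0 < |σ| := abs_pos.2 hσ
  have hσ1 : |σ| ≤ s₁ := hσs.trans (min_le_left _ _)
  have hσ2 : |σ| ≤ s₂ := hσs.trans ((min_le_right _ _).trans (min_le_left _ _))
  have hσ3 : |σ| ≤ s₃ := hσs.trans ((min_le_right _ _).trans (min_le_right _ _))
  have h11 : |σ| ≤ 1 := hσ1.trans hs₁1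
  rcases hR with hR | ⟨hT2, hR⟩
  · refine ⟨_, _, outR_sub d (R' := |σ| ^ (-(1 / 500) - 1 : ℝ) * Real.sqrt T) hσ0 h11
      (h125 _ hσ0 hσ3) hT (by positivity) ?_, fun E hE => h1 σ E T hσ hσ1 hE hT⟩
    refine le_trans ?_ hR
    exact mul_le_mul_of_nonneg_right
      (Real.rpow_le_rpow_of_exponent_ge hσ0 h11 (by norm_num)) (Real.sqrt_nonneg _)
  · exact ⟨_, _, outR_sub d (R' := K * |σ|⁻¹ * Real.sqrt T) hσ0 h11 (h125 _ hσ0 hσ3) hT
      (by positivity) hR, fun E hE => h2 σ E T hσ hσ2 hE hT2⟩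

/-- the mean over the potential and the times, general form -/
theorem tavG {d : ℕ} (P : Measure (Site d → ℝ)) [IsProbabilityMeasure P] {T ε κ : ℝ} {g : ℝ → ℂ}
    {r R : ℕ} {S : Set (Site d)} (hS : S ⊆ nf d r R) {B : Set ℝ} (hB : MeasurableSet B)
    (hBv : volume B ≤ ENNReal.ofReal (4 * d)) (hT : 0 < T) (hε : 0 ≤ ε) (hκ : 0 ≤ κ)
    (h : ∀ E ∈ B, P {V | BadZM V E (1 / T) (g E) ε r R} ≤ ENNReal.ofReal ε)
    (hg : ENNReal.ofReal (Real.pi - κ) ≤ ∫⁻ E in B, ENNReal.ofReal ((g E).im)) :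
    ∫⁻ V, (∫⁻ t in Set.Ioc (0 : ℝ) T, ∑' x : Site d, S.indicator
        (fun x => ENNReal.ofReal (‖evol V t x‖ ^ 2)) x) ∂P ≤
      ENNReal.ofReal (2 * T * (κ + (12 * d + 4) * ε)) := by
  have hη : 0 < 1 / T := by positivity
  have hsum := sumE (d := d) P hB hBv hη hε hκ h hg
  have hsum' : ∫⁻ V, (∫⁻ E : ℝ, mm (nf d r R) (1 / T) V E) ∂P ≤
      ENNReal.ofReal (κ + (12 * d + 4) * ε) := by
    rw [lintegral_lintegral_swap (f := fun (E : ℝ) (V : Site d → ℝ) => mm (nf d r R) (1 / T) V E)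
      (meas_mm (nf d r R) hη).aemeasurable] at hsum
    exact hsum
  calc ∫⁻ V, (∫⁻ t in Set.Ioc (0 : ℝ) T, ∑' x : Site d, S.indicator
        (fun x => ENNReal.ofReal (‖evol V t x‖ ^ 2)) x) ∂P
      ≤ ∫⁻ V, ENNReal.ofReal (2 * T) * (∫⁻ E : ℝ, mm (nf d r R) (1 / T) V E) ∂P := by
        refine lintegral_mono fun V => ?_
        refine (avg_le S (isEvolution_evol V) hT).trans ?_
        exact mul_le_mul' le_rfl (lintegral_mono fun E => mm_mono hS _ _ _)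
    _ = ENNReal.ofReal (2 * T) * ∫⁻ V, (∫⁻ E : ℝ, mm (nf d r R) (1 / T) V E) ∂P :=
        lintegral_const_mul' _ _ ENNReal.ofReal_ne_top
    _ ≤ ENNReal.ofReal (2 * T) * ENNReal.ofReal (κ + (12 * d + 4) * ε) := mul_le_mul' le_rfl hsum'
    _ = ENNReal.ofReal (2 * T * (κ + (12 * d + 4) * ε)) :=
        (ENNReal.ofReal_mul (by positivity)).symm

/-- the event form for the time evolution -/
theorem tevG (hQ : QamStmt) (hK : QkmStmt) (hF : FreStmt) (d : ℕ) (ε : ℝ) (hd : 3 ≤ d)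
    (hε : 0 < ε) :
    ∃ s P K : ℝ, 0 < s ∧ s ≤ 1 ∧ 1 ≤ P ∧ 1 ≤ K ∧
      ∀ σ T R : ℝ, σ ≠ 0 → |σ| ≤ s → |σ| ^ (-3 : ℝ) ≤ T → Rad P K σ T R →
      PP d (gl σ) {V | ENNReal.ofReal (ε * T) < ∫⁻ t in Set.Ioc (0 : ℝ) T, ∑' x : Site d,
        (outR d (|σ| ^ (-(99 / 100) : ℝ) * Real.sqrt T) R).indicator
          (fun x => ENNReal.ofReal (‖evol V t x‖ ^ 2)) x} ≤ ENNReal.ofReal ε := by
  have hd0 : (0 : ℝ) ≤ d := Nat.cast_nonneg d
  obtain ⟨a, y₀, ha, ha1, hy₀, hfre⟩ := hF d (ε * ε / 4) hd (by positivity)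
  obtain ⟨ε', hε'0, hε'1⟩ : ∃ ε' : ℝ, 0 < ε' ∧ (12 * d + 4) * ε' = ε * ε / 4 := by
    refine ⟨ε * ε / (4 * (12 * d + 4)), by positivity, ?_⟩
    field_simp
  obtain ⟨s₂, P, K, hs₂, hs₂1, hP, hK1, hq⟩ := fin hQ hK d a ε' hd ha hε'0
  refine ⟨min s₂ y₀, P, K, lt_min hs₂ hy₀, (min_le_left _ _).trans hs₂1, hP, hK1,
    fun σ T R hσ hσs hT hR => ?_⟩
  have hs : 0 < |σ| := abs_pos.2 hσ
  have hσ2 : |σ| ≤ s₂ := hσs.trans (min_le_left _ _)
  have hσ3 : |σ| ≤ y₀ := hσs.trans (min_le_right _ _)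
  have hσ11 : |σ| ≤ 1 := hσ2.trans hs₂1
  have hT0 : 0 < T := lt_of_lt_of_le (Real.rpow_pos_of_pos hs _) hT
  have hη : 0 < 1 / T := by positivity
  have hT2 : 1 / T ≤ y₀ := by
    have h1 : |σ| ^ (-1 : ℝ) ≤ T :=
      (Real.rpow_le_rpow_of_exponent_ge hs hσ11 (by norm_num)).trans hT
    rw [Real.rpow_neg_one] at h1
    have h2 : 1 / T ≤ |σ| := by
      rw [one_div]
      exact inv_le_of_inv_le₀ hs h1
    exact h2.trans hσ3
  have hB : volume (Set.Icc (-(2 * (d : ℝ) - a)) (2 * d - a)) ≤ ENNReal.ofReal (4 * d) := by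
    rw [Real.volume_Icc]
    exact ENNReal.ofReal_le_ofReal (by linarith)
  obtain ⟨r', R', hsub, hbad⟩ := hq σ T R hσ hσ2 hT hR
  have h := tavG (d := d) (PP d (gl σ)) (T := T) (ε := ε') (κ := ε * ε / 4)
    (g := fun E => g0 d (zz (1 / T) E)) hsub measurableSet_Icc hB hT0 hε'0.le
    (by positivity) (fun E hE => hbad E (abs_le.2 hE)) (hfre (1 / T) hη hT2)
  rw [hε'1] at h
  have h3 := mul_meas_ge_le_lintegral₀ (μ := PP d (gl σ))
    (meas_avg (outR d (|σ| ^ (-(99 / 100) : ℝ) * Real.sqrt T) R) T).aemeasurable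
    (ENNReal.ofReal (ε * T))
  have h4 := h3.trans h
  have h5 : ENNReal.ofReal (2 * T * (ε * ε / 4 + ε * ε / 4)) =
      ENNReal.ofReal (ε * T) * ENNReal.ofReal ε := by
    rw [← ENNReal.ofReal_mul (by positivity)]
    congr 1
    ring
  rw [h5] at h4
  have h6 := (ENNReal.mul_le_mul_iff_right (a := ENNReal.ofReal (ε * T))
    (ENNReal.ofReal_pos.2 (by positivity)).ne' ENNReal.ofReal_ne_top).1 h4
  refine le_trans (measure_mono ?_) h6
  intro V hV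
  rw [Set.mem_ofPred_eq] at hV ⊢
  exact hV.le

end Pool.Agent.QDA.H76
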