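import Pool.Agent.Helper76_QDA.Fin

/-!
# MP_1906c1_mp: quantum diffusion at weak disorder, for all times

Draft of the hand-in (the three hypotheses of `resultE` are rows of QDA).
-/

set_option autoImplicit false

open MeasureTheory ProbabilityTheory

open scoped ENNReal

noncomputable section

namespace Pool.Agent.QDA.H76.HandinQ

open Pool.Agent.Anderson

variable {d : ℕ}

/-- The sum over the `2 d` nearest neighbours of `x ∈ ℤ^d`. -/
def hop (u : Site d → ℂ) (x : Site d) : ℂ :=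
  ∑ i, (u (x + Pi.single i 1) + u (x - Pi.single i 1))

/-- `g ∈ ℓ²(ℤ^d)` is the solution of `(Δ + V - z) g = δ_0`. -/
def IsGreen (V : Site d → ℝ) (z : ℂ) (g : Site d → ℂ) : Prop :=
  Summable (fun x => ‖g x‖ ^ 2) ∧ ∀ x, hop g x + (V x - z) * g x = if x = 0 then 1 else 0

/-- `ψ(t) = e^{-itH} δ_0`, `H = Δ + V`: `ψ` is continuous with values in `ℓ²(ℤ^d)`, `ψ(0) = δ_0` and
`i ∂ψ/∂t = H ψ` at all times and all sites. -/
def IsEvolution (V : Site d → ℝ) (ψ : ℝ → lp (fun _ : Site d => ℂ) 2) : Prop :=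
  Continuous ψ ∧ (∀ x, ψ 0 x = if x = 0 then 1 else 0) ∧
    ∀ t x, HasDerivAt (fun s => ψ s x) (-Complex.I * (hop (ψ t) x + V x * ψ t x)) t

/-- Independent standard Gaussians. -/
def gauss (ι : Type) : Measure (ι → ℝ) := Measure.infinitePi fun _ => gaussianReal 0 1

/-- The annulus `r < |x| < R`, `|x|` the maximum of the `|x i|`. -/
def annulus (d : ℕ) (r R : ℝ) : Set (Site d) :=
  {x | r < ‖x‖ ∧ ‖x‖ < R}

/-- The probability that the particle is in `S`, averaged over the times `0 < t ≤ T`. -/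
def timeMass (ψ : ℝ → lp (fun _ : Site d => ℂ) 2) (T : ℝ) (S : Set (Site d)) : ℝ≥0∞ :=
  (∫⁻ t in Set.Ioc 0 T, ∑' x : S, ENNReal.ofReal (‖ψ t x‖ ^ 2)) / ENNReal.ofReal T

/-- The mass in `S` of the state at the time `T` and at the energy `E`, `g` the Green function at
`E + i / T`. -/
def greenMass (g : Site d → ℂ) (T : ℝ) (S : Set (Site d)) : ℝ≥0∞ :=
  ∑' x : S, ENNReal.ofReal (‖g x‖ ^ 2 / T)

/-- Let `d ≥ 3`, `H = Δ + σ ξ` with `ξ(x)`, `x ∈ ℤ^d`, independent standard Gaussians. For all `V`,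
`G(V, z)` is the unique `ℓ²` solution of `(Δ + V - z) g = δ_0`, `Im z > 0`, and `ψ(V)` is the unique
solution of the Schroedinger equation of `Δ + V` with `ψ(0) = δ_0`. For all `a, ε > 0` there are
`s, P, K > 0` such that for `0 < |σ| ≤ s` and ALL times `T ≥ |σ|^(-3)`, with `r = |σ|^(-0.99) √T` and
any `R ≥ |σ|^(-1.01) √T` (if `T ≥ |σ|^(-P)`, any `R ≥ K √T / |σ|`):

* (quantum diffusion) with probability at least `1 - ε`: the probability that the particle is not in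
  the annulus `r < |x| < R`, averaged over the times `0 < t ≤ T`, is at most `ε`;
* (local law) for `|E| ≤ 2 d - a`, with probability at least `1 - ε`:
  `|G(σ ξ, E + i / T, 0) - G(0, E + i / T, 0)| ≤ ε`, and the sum of `|G(σ ξ, E + i / T, x)|² / T` over
  all `x` which are not in the annulus `r < |x| < R` is at most `ε`. -/
theorem resultE (hQ : QamStmt) (hK : QkmStmt) (hF : FreStmt) (d : ℕ) (hd : 3 ≤ d) :
    ∃ (G : (Site d → ℝ) → ℂ → Site d → ℂ)
      (ψ : (Site d → ℝ) → ℝ → lp (fun _ : Site d => ℂ) 2),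
    (∀ (V : Site d → ℝ) (z : ℂ), 0 < z.im → IsGreen V z (G V z) ∧ ∀ g, IsGreen V z g → g = G V z) ∧
    (∀ V : Site d → ℝ, IsEvolution V (ψ V) ∧ ∀ φ, IsEvolution V φ → φ = ψ V) ∧
    (∀ (z : ℂ) (x : Site d), 0 < z.im → Measurable fun V => G V z x) ∧
    (∀ (t : ℝ) (x : Site d), Measurable fun V => ψ V t x) ∧
    ∀ a ε : ℝ, 0 < a → 0 < ε → ∃ s P K : ℝ, 0 < s ∧ 0 < P ∧ 0 < K ∧
      ∀ σ T r R : ℝ, 0 < |σ| → |σ| ≤ s → |σ| ^ (-3 : ℝ) ≤ T →
        r = |σ| ^ (-(99 / 100) : ℝ) * Real.sqrt T →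
        (|σ| ^ (-(101 / 100) : ℝ) * Real.sqrt T ≤ R ∨
          |σ| ^ (-P) ≤ T ∧ K * Real.sqrt T / |σ| ≤ R) →
        gauss (Site d) {ξ | ENNReal.ofReal ε <
          timeMass (ψ fun x => σ * ξ x) T (annulus d r R)ᶜ} ≤ ENNReal.ofReal ε ∧
        ∀ E : ℝ, |E| ≤ 2 * d - a →
          gauss (Site d) {ξ |
            ε < ‖G (fun x => σ * ξ x) ⟨E, 1 / T⟩ 0 - G 0 ⟨E, 1 / T⟩ 0‖ ∨
            ENNReal.ofReal ε < greenMass (G (fun x => σ * ξ x) ⟨E, 1 / T⟩) T
              (annulus d r R)ᶜ} ≤ ENNReal.ofReal ε := by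
  refine ⟨fun V z x => Pool.Agent.Helper54.Bal.G V z (Pool.Agent.Anderson.del 0) x,
    fun V => Pool.Agent.Helper54.Bal.evol V, fun V z hz => ?_, fun V => ⟨?_, fun φ hφ => ?_⟩,
    fun z x hz => ?_, fun t x => ?_, fun a ε ha hε => ?_⟩
  · have h := green V z hz
    exact ⟨h.1, fun g hg => h.2 g hg.1 hg.2⟩
  · exact (evolution_iff V _).2 (Pool.Agent.Helper54.Bal.isEvolution_evol V)
  · exact Pool.Agent.Helper54.Bal.evol_unique (Pool.Agent.Helper54.Bal.isEvolution_evol V)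
      ((evolution_iff V _).1 hφ)
  · exact measGz z hz x
  · exact meas_evol t x
  obtain ⟨s₁, P₁, K₁, hs₁, hs₁1, hP₁, hK₁, h1⟩ := tevG hQ hK hF d ε hd hε
  obtain ⟨s₂, P₂, K₂, hs₂, hs₂1, hP₂, hK₂, h2⟩ := fin hQ hK d a (ε / 2) hd ha (by linarith)
  refine ⟨min s₁ s₂, max P₁ P₂, max K₁ K₂, lt_min hs₁ hs₂,
    lt_of_lt_of_le one_pos (hP₁.trans (le_max_left _ _)),
    lt_of_lt_of_le one_pos (hK₁.trans (le_max_left _ _)), fun σ T r R hσ0 hσs hT hr hR => ?_⟩
  have hσ : σ ≠ 0 := abs_pos.1 hσ0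
  have hσ1 : |σ| ≤ s₁ := hσs.trans (min_le_left _ _)
  have hσ2 : |σ| ≤ s₂ := hσs.trans (min_le_right _ _)
  have h11 : |σ| ≤ 1 := hσ1.trans hs₁1
  have hT0 : 0 < T := lt_of_lt_of_le (Real.rpow_pos_of_pos hσ0 _) hT
  have hrad : Rad (max P₁ P₂) (max K₁ K₂) σ T R := by
    rcases hR with hR | ⟨hR1, hR2⟩
    · exact Or.inl hR
    · refine Or.inr ⟨hR1, ?_⟩
      have e : max K₁ K₂ * Real.sqrt T / |σ| = max K₁ K₂ * |σ|⁻¹ * Real.sqrt T := by
        rw [div_eq_mul_inv]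
        ring
      rwa [← e]
  have hset : (annulus d r R)ᶜ = outR d (|σ| ^ (-(99 / 100) : ℝ) * Real.sqrt T) R := by
    ext x
    unfold annulus outR
    rw [Set.mem_compl_iff, Set.mem_ofPred_eq, Set.mem_ofPred_eq, not_and_or, not_lt, not_lt, hr]
  refine ⟨?_, fun E hE => ?_⟩
  · have h := set_le d σ _ (h1 σ T R hσ hσ1 hT
      (hrad.mono hσ h11 (le_max_left _ _) (le_max_left _ _)))
    refine le_trans (measure_mono ?_) h
    intro ξ hξ
    rw [Set.mem_ofPred_eq] at hξ ⊢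
    rw [Set.mem_ofPred_eq]
    unfold timeMass at hξ
    rw [hset] at hξ
    have h3 : ENNReal.ofReal (ε * T) = ENNReal.ofReal ε * ENNReal.ofReal T :=
      ENNReal.ofReal_mul hε.le
    have hT1 : ENNReal.ofReal T ≠ 0 := (ENNReal.ofReal_pos.2 hT0).ne'
    rw [h3]
    have h4 := (ENNReal.lt_div_iff_mul_lt (Or.inl hT1) (Or.inl ENNReal.ofReal_ne_top)).1 hξ
    refine lt_of_lt_of_le h4 (le_of_eq ?_)
    refine lintegral_congr fun t => ?_
    exact tsum_subtype (outR d (|σ| ^ (-(99 / 100) : ℝ) * Real.sqrt T) R) (fun x =>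
      ENNReal.ofReal (‖Pool.Agent.Helper54.Bal.evol (fun x => σ * ξ x) t x‖ ^ 2))
  · obtain ⟨r', R', hsub, hbad⟩ := h2 σ T R hσ hσ2 hT
      (hrad.mono hσ h11 (le_max_right _ _) (le_max_right _ _))
    have h := set_le d σ _ (hbad E hE)
    refine (measure_mono ?_).trans (h.trans (ENNReal.ofReal_le_ofReal (by linarith)))
    intro ξ hξ
    rw [Set.mem_ofPred_eq]
    by_contra hc
    have hg := good_out hT0 hε.le hsub hc
    rw [Set.mem_ofPred_eq] at hξ
    rcases hξ with hξ | hξ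
    · exact absurd hξ (not_lt.2 (hg.1.trans (by linarith)))
    · refine absurd hξ (not_lt.2 ?_)
      unfold greenMass
      rw [hset]
      exact hg.2

end Pool.Agent.QDA.H76.HandinQ
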