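import Pool.Agent.Helper42_LE.MainJ
import Pool.Agent.Helper93_LEC.AllC
import Pool.Agent.Helper96_LEC.Sym
import Pool.Agent.Helper93_LEW.AllW

/-!
# MP_1906c1_mp: the Lyapunov exponent is continuous; the localization length diverges at the mobility edge

For `H = Δ + σ ξ` on `ℤ^d` (any `d ≥ 1`), `ξ` iid standard Gaussian, `σ ≠ 0`, and every real energy
`E`, the Green function of the cube `|x|_∞ ≤ L` between the centre and the boundary has a typical
rate of exponential decay: there is a nonrandom number `γ(σ, E) ≥ 0` such that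

  `- (1 / L) log max_{|u|_∞ = L} |G_L(0, u; E)| → γ(σ, E)` in probability, as `L → ∞`.

`γ` is a continuous function of `(σ, E)`, `σ ≠ 0`. At the energies with `γ > 0` there is
localization (exponential decay of all polynomially bounded solutions, completeness of the
eigenfunctions, dynamical localization), and the localization length `1/γ` tends to infinity at the
boundary of this set. Near each energy with `γ = 0` the transport exponent is at least `1/d`. At weak
disorder `γ(σ, E) ≤ C |σ| ^ (1 / (d (d + 4)))` at all energies `|E| ≤ 2 d` of the free spectrum.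
For `d ≥ 3` there is a critical coupling constant `σ_c ≥ 0`: `γ > 0` at all energies if `|σ| > σ_c`,
and `γ(σ_c, E) = 0` for some `E` if `σ_c > 0`; and for each `σ` either `γ > 0` at all energies or
there is `E₀(σ) ≥ 0` with `γ > 0` if `|E| > E₀(σ)` and `γ = 0` at `± E₀(σ)`.

The proof of the existence of `γ`. In a cube of radius `N`, at a real energy, `D(x, y) = -log |G(x, y)|`
is almost subadditive: `|G(x, u)| |G(u, y)| ≤ e^t |G(x, y)|` outside an event of probability
`C e^{-t}`. Average over the base point `a` in a large cube and let `N → ∞` along an ultrafilter: the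
norms in `L²` of `X_ℓ = D(a, a + ℓ y) / ℓ` converge (Fekete), the norm of `(X_ℓ + X_ℓ') / 2` is at least
that of `X_{ℓℓ'}` up to small errors, and the parallelogram identity shows that `X_ℓ` is a Cauchy
sequence. So at all large scales `D(a, a + ℓ y)` is almost invariant under the shifts of `a` by
multiples of `ℓ`. By the comparison of the Green functions of the cubes of radius `L` and of the large
cube, the decay rates of two disjoint cubes of radius `L` are almost equal with high probability; they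
are independent, so they are almost constant; and the constants of two scales are almost equal.
If `γ(E) > 0` there is decay with a probability close to one, a multiscale induction at the energy
`E` makes this probability superpolynomially close to one, and a finite volume criterion for
fractional moments gives localization near `E`. The constants in these steps are uniform in `(σ, E)`,
which gives the joint lower semicontinuity: for each scale the cubes with decay are stable under a
change of `(σ, E)`, and the decay at the scale `L` with a probability close to one gives almost the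
same rate at all larger scales.

Upper semicontinuity. Suppose `γ = 0` at `q₀` and `γ(q) > κ` at points `q` near `q₀`. At a fixed scale
the cubes conduct at `q`. By the pigeonhole principle there are good scales (with a zero-one law) in
windows of bounded ratio, so there is a first non conducting good scale `L`, with a conducting scale
`L' ≥ L / R` below it. A cube of side `L` is insulating with high probability: `D ≥ c L` between
opposite faces. The distances `D` to the `d` faces map the cube onto a set which contains a cube of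
side `c L` (Poincaré-Miranda). But the small cubes conduct: a `D`-ball of radius `s = L' / M` contains
at least `M` cells of side `s`, so the image is covered by `(1/M) (L / s)^d` balls of radius `C s`, a
contradiction if `M` is large. If the cubes of the scale `L` are insulating, `γ` is at most their rate.

Weak disorder. The same argument, with the conduction of the cubes of radius `|σ| ^ (-c)`. It is
deterministic where the potential is small: a function `ψ` supported in a cube of radius `r`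
satisfies `‖ψ‖ ≤ 4 (r + 1)² ‖(Δ - E) ψ‖` (a virial identity), and `Δ` has the plane waves as
generalized eigenfunctions, so the Green function of a cube cannot be small on its boundary.
-/

set_option autoImplicit false

open MeasureTheory ProbabilityTheory Filter

open scoped ENNReal ComplexInnerProductSpace Topology

noncomputable section

namespace Pool.Agent.Results.MP_1906c1_mp.LyapunovExponent

open Pool.Agent.Anderson Pool.Agent.Loc Pool.Agent.Helper54.Bal

universe u

variable {d : ℕ}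

/-- Exponential decay, at the rate `κ`, of the Green function of `H = Δ + V` in the cube
`box 0 L`, `|x|_∞ ≤ L`, from the centre to the boundary: `E` is not an eigenvalue of the
restriction of `H` to the cube and the matrix element at `0`, `u` of the inverse of `E - H` in the
cube is at most `e^{-κ L}` for all `u` with `|u|_∞ = L`. -/
def Decays (V : Site d → ℝ) (E κ : ℝ) (L : ℕ) : Prop :=
  (RM V (box 0 L) E).det ≠ 0 ∧ ∀ u, sd 0 u = L → |gr V (box 0 L) E 0 u| ≤ Real.exp (-κ * L)

/-- The probability of decay, for `V = σ ξ`, `ξ` independent standard Gaussians. -/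
def prob (d : ℕ) (σ E κ : ℝ) (L : ℕ) : ℝ≥0∞ :=
  (Measure.infinitePi fun _ : Site d => gaussianReal 0 1)
    {ξ : Site d → ℝ | Decays (fun x => σ * ξ x) E κ L}

/-- `(H - z)⁻¹ δ₀` for `H = Δ + V`: the solution `g ∈ ℓ²(ℤ^d)` of `(Δ + V - z) g = δ₀`. For
`Im z ≠ 0` it exists and is unique. -/
def green (V : Site d → ℝ) (z : ℂ) : L2 d :=
  open Classical in
  if h : ∃ g : L2 d, ∀ x, lap g x + ((V x : ℂ) - z) * g x = if x = 0 then 1 else 0 then
    h.choose else 0

/-- The time averaged mass at distance at least `R` from `0` at the time scale `T`, for the energies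
in `(a, b)`: `(1/T) ∫_a^b ∑_{|x| ≥ R} |(H - E - i/T)⁻¹(0, x)|² dE`. Without the restriction on the
energies it is `(2 π / T) ∫₀^∞ e^(-2t/T) ∑_{|x| ≥ R} |(e^(-itH) δ₀)(x)|² dt`. -/
def spreading (V : Site d → ℝ) (T R a b : ℝ) : ℝ≥0∞ :=
  ∫⁻ E in Set.Ioo a b, ∑' x : Site d, if R ≤ (sd 0 x : ℝ) then
    ENNReal.ofReal (‖green V ((E : ℂ) + Complex.I / T) x‖ ^ 2 / T) else 0

theorem green_eq (V : Site d → ℝ) {z : ℂ} (hz : z.im ≠ 0) : green V z = G V z (del 0) := by
  have hdel : ∀ x, (del (0 : Site d) : L2 d) x = if x = 0 then 1 else 0 := fun x => del_apply 0 x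
  have hex : ∃ g : L2 d, ∀ x, lap g x + ((V x : ℂ) - z) * g x = if x = 0 then 1 else 0 :=
    ⟨G V z (del 0), fun x => (G_eq hz (del 0) x).trans (hdel x)⟩
  unfold green
  rw [dif_pos hex]
  exact G_unique hz fun x => (hex.choose_spec x).trans (hdel x).symm

theorem spreading_eq (V : Site d → ℝ) {T : ℝ} (hT : T ≠ 0) (R a b : ℝ) :
    spreading V T R a b = Pool.Agent.Mob.spread V T R (Set.Ioo a b) := by
  unfold spreading Pool.Agent.Mob.spread
  refine lintegral_congr fun E => tsum_congr fun x => ?_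
  have h1 : (E : ℂ) + Complex.I / T = zz (1 / T) E := by
    unfold zz
    push_cast
    ring
  have h2 : (zz (1 / T) E).im ≠ 0 := by
    rw [zz_im]
    exact one_div_ne_zero hT
  rw [h1, green_eq V h2]

theorem prob_eq (σ E κ : ℝ) (L : ℕ) : prob d σ E κ L = Pool.Agent.LE.H93.pr d σ E κ L := by
  have hm : ∀ y : Site d, Measurable fun ξ : Site d → ℝ => ξ y := fun y => measurable_pi_apply y
  have hlaw : ∀ y : Site d, (Measure.infinitePi fun _ : Site d => gaussianReal 0 1).map
      (fun ξ => ξ y) = gaussianReal 0 1 := fun y =>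
    (measurePreserving_eval_infinitePi (fun _ : Site d => gaussianReal 0 1) y).map_eq
  have hind : iIndepFun (fun (y : Site d) (ξ : Site d → ℝ) => ξ y)
      (Measure.infinitePi fun _ : Site d => gaussianReal 0 1) :=
    iIndepFun_infinitePi (P := fun _ : Site d => gaussianReal 0 1) (X := fun _ t => t)
      (fun _ => measurable_id)
  have h := Pool.Agent.Mob.H42.map_eq_PP hm hlaw hind σ
  unfold Pool.Agent.LE.H93.pr prob
  rw [← h, Measure.map_apply (Pool.Agent.Mob.H42.measurable_W hm σ)
    (Pool.Agent.LE.H93.meas_SG L κ E 0)]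
  rfl

/-- Let `d ≥ 1`, `H = Δ + σ ξ` with `ξ(y)`, `y ∈ ℤ^d`, independent standard Gaussians. There is a
function `γ` of the coupling constant and the energy such that for every `σ ≠ 0`, every real `E` and
every `ε > 0`: `γ(σ, E) ≥ 0`, the probability of decay at the rate `γ(σ, E) + ε` in the cube of
radius `L` tends to `0`, and the probability of decay at the rate `γ(σ, E) - ε` tends to `1`, as
`L → ∞`. The function `γ` is continuous in `(σ, E)`, `σ ≠ 0`, and
`γ(σ, E) ≤ C |σ| ^ (1 / (d (d + 4)))` for all `|E| ≤ 2 d`, `0 < |σ| ≤ 1`. If `d ≥ 3` there is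
`σc ≥ 0` such that `γ(σ, E) > 0` for all `E` if `|σ| > σc`, and `γ(σc, E) = 0` for some `E` if
`σc > 0`.
For each `σ ≠ 0`: if `d ≥ 3`, either `γ(σ, E) > 0` for all `E` or there is `E₀ ≥ 0` with
`γ(σ, E) > 0` for `|E| > E₀` and `γ(σ, ± E₀) = 0`; if `γ(σ, E) > 0`, there is `κ > 0`
such that the probability of decay at the rate `κ` is `≥ 1 - e^{-c L}`, `c > 0`, for all large `L`;
and for each family `ξ` of independent standard Gaussians:

* for each compact `K ⊆ {γ > 0}`, almost surely, every polynomially bounded solution of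
  `H ψ = E ψ` with `E ∈ K` decays exponentially, with a rate `m > 0` which depends on `K`;
* almost surely, for all `[c - r, c + r] ⊆ {γ > 0}`: a vector `u ∈ ℓ²` with `w = H u ∈ ℓ²` which is
  orthogonal to the eigenfunctions with eigenvalues in `[c - r, c + r]` satisfies
  `‖(H - c) u‖ ≥ r ‖u‖`, so the spectrum is pure point in `(c - r, c + r)`;
* if `[a, b] ⊆ {γ > 0}` then, for all `β > 0` and `k`, the mean of `spreading T (T ^ β) a b` is at
  most `T ^ (-k)` for large `T` (dynamical localization);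
* if `(a, b)` is not contained in `{γ > 0}`, the mean of `spreading T (T ^ (1/(d+δ))) a b` is at
  least `T ^ (-6)`, for all large `T`, for each `δ ∈ (0, 1]`. -/
theorem result (d : ℕ) (hd : 1 ≤ d) :
    ∃ γ : ℝ → ℝ → ℝ,
    (∀ σ : ℝ, σ ≠ 0 → ∀ E : ℝ, 0 ≤ γ σ E ∧ ∀ ε : ℝ, 0 < ε →
      Tendsto (prob d σ E (γ σ E + ε)) atTop (𝓝 0) ∧
      Tendsto (prob d σ E (γ σ E - ε)) atTop (𝓝 1)) ∧
    (∀ σ : ℝ, σ ≠ 0 → ∀ E : ℝ, ContinuousAt (fun q : ℝ × ℝ => γ q.1 q.2) (σ, E)) ∧
    (∃ C : ℝ, ∀ σ E : ℝ, σ ≠ 0 → |σ| ≤ 1 → |E| ≤ 2 * d →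
      γ σ E ≤ C * |σ| ^ (1 / ((d : ℝ) * (d + 4)))) ∧
    (3 ≤ d → ∃ σc : ℝ, 0 ≤ σc ∧ (∀ σ : ℝ, σc < |σ| → ∀ E : ℝ, 0 < γ σ E) ∧
      (0 < σc → ∃ E : ℝ, γ σc E = 0)) ∧
    ∀ σ : ℝ, σ ≠ 0 →
    (3 ≤ d → (∀ E : ℝ, 0 < γ σ E) ∨ ∃ E₀ : ℝ, 0 ≤ E₀ ∧ γ σ E₀ = 0 ∧ γ σ (-E₀) = 0 ∧
      ∀ E : ℝ, E₀ < |E| → 0 < γ σ E) ∧
    (∀ E : ℝ, 0 < γ σ E → ∃ κ c : ℝ, 0 < κ ∧ 0 < c ∧ ∀ᶠ L : ℕ in atTop,
      1 - prob d σ E κ L ≤ ENNReal.ofReal (Real.exp (-c * L))) ∧
    ∀ (Ω : Type u) [MeasurableSpace Ω] (P : Measure Ω) [IsProbabilityMeasure P]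
      (ξ : Site d → Ω → ℝ), (∀ y, Measurable (ξ y)) →
      (∀ y, P.map (ξ y) = gaussianReal 0 1) → iIndepFun ξ P →
      (∀ K : Set ℝ, IsCompact K → K ⊆ {E | 0 < γ σ E} → ∃ m : ℝ, 0 < m ∧ ∀ᵐ ω ∂P, ∀ E ∈ K,
        ∀ ψ : Site d → ℂ,
          (∃ (B : ℝ) (k : ℕ), ∀ x, ‖ψ x‖ ≤ B * (1 + (sd 0 x : ℝ)) ^ k) →
          (∀ x, lap ψ x + ((σ * ξ x ω : ℝ) : ℂ) * ψ x = (E : ℂ) * ψ x) →
          ∃ B : ℝ, ∀ x, ‖ψ x‖ ≤ B * Real.exp (-m * sd 0 x)) ∧
      (∀ᵐ ω ∂P, ∀ c r : ℝ, Set.Icc (c - r) (c + r) ⊆ {E | 0 < γ σ E} → ∀ u w : L2 d,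
        (∀ x, w x = lap u x + ((σ * ξ x ω : ℝ) : ℂ) * u x) →
        (∀ (E : ℝ) (ψ : L2 d), E ∈ Set.Icc (c - r) (c + r) →
          IsEigen (fun x => σ * ξ x ω) E ψ → ⟪ψ, u⟫ = 0) →
        r * ‖u‖ ≤ ‖w - (c : ℂ) • u‖) ∧
      (∀ a b β k : ℝ, Set.Icc a b ⊆ {E | 0 < γ σ E} → 0 < β → ∃ T₀ : ℝ, ∀ T : ℝ, T₀ ≤ T →
        ∫⁻ ω, spreading (fun x => σ * ξ x ω) T (T ^ β) a b ∂P ≤ ENNReal.ofReal (T ^ (-k))) ∧
      (∀ a b δ : ℝ, ¬ Set.Ioo a b ⊆ {E | 0 < γ σ E} → 0 < δ → δ ≤ 1 → ∃ T₀ : ℝ, ∀ T : ℝ,
        T₀ ≤ T → ENNReal.ofReal (T ^ (-6 : ℝ)) ≤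
          ∫⁻ ω, spreading (fun x => σ * ξ x ω) T (T ^ (1 / ((d : ℝ) + δ))) a b ∂P) := by
  obtain ⟨γ, h0, -, h2, h3⟩ := Pool.Agent.LE.H42J.mainJ.{u} Pool.Agent.LE.H96.mainGT
    Pool.Agent.LE.H96.smpT Pool.Agent.LE.H15.smn Pool.Agent.LE.H96.algT d hd
  have hL : ∀ σ : ℝ, σ ≠ 0 → ∀ E, Pool.Agent.LE.LyaAt d σ E (γ σ E) := fun σ hσ E =>
    Pool.Agent.LE.H96.lyaAt_of_pr (h0 σ hσ E).1 (h0 σ hσ E).2
  have h1 := Pool.Agent.LE.H93C.conT d γ hd hL
  have e : ∀ σ E κ, prob d σ E κ = Pool.Agent.LE.H93.pr d σ E κ :=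
    fun σ E κ => funext fun L => prob_eq σ E κ L
  obtain ⟨C, -, hC⟩ := Pool.Agent.LE.H93W.wkdT d hd
  refine ⟨γ, fun σ hσ E => ⟨(h0 σ hσ E).1, fun ε hε => ?_⟩, fun σ hσ E => h1 (σ, E) hσ,
    ⟨C, fun σ E hσ hσ1 hE => hC σ E (γ σ E) hσ hσ1 hE (hL σ hσ E)⟩, h2, fun σ hσ => ?_⟩
  · rw [e, e]
    exact (h0 σ hσ E).2 ε hε
  obtain ⟨k1, k2, k3⟩ := h3 σ hσ
  refine ⟨fun hd3 => ?_, fun E hE => ?_, ?_⟩
  · by_cases hpos : ∀ E : ℝ, 0 < γ σ E
    · exact Or.inl hpos
    · right
      push Not at hpos
      obtain ⟨E₁, hE₁⟩ := hpos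
      refine Pool.Agent.LE.H96C.edge (fun E => (h0 σ hσ E).1) ?_
        (Pool.Agent.LE.H96C.lya_even hL hσ) (k1 hd3)
        ⟨E₁, le_antisymm hE₁ (h0 σ hσ E₁).1⟩
      refine continuous_iff_continuousAt.2 fun E => ?_
      exact (h1 (σ, E) hσ).comp (f := fun E : ℝ => (σ, E))
        (continuous_const.prodMk continuous_id).continuousAt
  · simp only [e]
    exact k2 E hE
  intro Ω _ P _ ξ hm hlaw hind
  obtain ⟨g1, g2, g3, g4⟩ := k3 Ω P ξ hm hlaw hind
  refine ⟨g1, g2, ?_, ?_⟩
  · intro a b β k hab hβ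
    obtain ⟨T₀, hT⟩ := g3 a b β k hab hβ
    refine ⟨max T₀ 1, fun T hTT => ?_⟩
    have hT0 : T ≠ 0 := (lt_of_lt_of_le one_pos ((le_max_right _ _).trans hTT)).ne'
    simp only [spreading_eq _ hT0]
    exact hT T ((le_max_left _ _).trans hTT)
  · intro a b δ hab hδ hδ1
    obtain ⟨T₀, hT⟩ := g4 a b δ hab hδ hδ1
    refine ⟨max T₀ 1, fun T hTT => ?_⟩
    have hT0 : T ≠ 0 := (lt_of_lt_of_le one_pos ((le_max_right _ _).trans hTT)).ne'
    simp only [spreading_eq _ hT0]
    exact hT T ((le_max_left _ _).trans hTT)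

end Pool.Agent.Results.MP_1906c1_mp.LyapunovExponent

/-
Claim file of this hand-in (not in Results any more, kept for later use):

Proves: Let d >= 1, xi iid standard Gaussian on Z^d, H = Delta + sigma xi, sigma nonzero. There is gamma(sigma,E) >= 0, jointly continuous, with, for eps > 0: the Green function at E of the cube |x| <= L is <= e^(-(gamma-eps)L) from 0 to the boundary with probability -> 1, <= e^(-(gamma+eps)L) with probability -> 0 (L -> infinity); if gamma > 0, <= e^(-mL), some m > 0, with probability >= 1-e^(-cL), L large. gamma <= C|sigma|^(1/(d(d+4))) for |E| <= 2d, |sigma| <= 1. d >= 3: for some sigma_c >= 0, gamma > 0 at all E if |sigma| > sigma_c, gamma(sigma_c,E) = 0 for some E if sigma_c > 0; each sigma: gamma > 0 at all E, or for some E_0 >= 0 gamma > 0 if |E| > E_0, = 0 at +-E_0. Fix sigma; K compact, [a,b], [c-r,c+r] in {gamma > 0}: a.s. polynomially bounded solutions, E in K, are O(e^(-m|x|)), m = m(K) > 0; a.s. |(H-c)u| >= r|u| for u, Hu in l^2, u orthogonal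 to the eigenfunctions with energies in [c-r,c+r]; E S(T,T^beta) <= T^-k, beta > 0, T large. (a,b) not in {gamma > 0}: E S(T,T^(1/(d+delta))) >= T^-6, 0 < delta <= 1, T large.
Definitions: Decays, prob: the bound, its probability; lap: Delta; sd: sup distance; green: (H-z)^-1 at 0; spreading: S(T,R) = T^-1 int_a^b sum over |x| >= R of |(H-E-i/T)^-1(0,x)|^2 dE; IsEigen: l^2 eigenfunction.
Relation: Partial, on (1), (2a); (2b) not proved. Localization length 1/gamma continuous, infinite at the mobility edge. Weak disorder: known for most eigenfunctions, better powers (Schlag-Shubin-Wolff, Chen). New as far as we know. Authors: helper93, 96, 54, 59, 42, others.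
-/
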