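import Pool.Agent.Helper76_QDA.Tav1

/-!
# QDA, row TAV: quantum diffusion for the time evolution from the form resolved in energy
-/

set_option autoImplicit false

open MeasureTheory ProbabilityTheory Function Filter

open scoped BigOperators NNReal ENNReal Matrix InnerProductSpace Topology

noncomputable section

namespace Pool.Agent.QDA.H76

open Pool.Agent.Anderson hiding box mem_box card_box
open Pool.Agent.Loc Pool.Agent.Mob Pool.Agent.Helper54.Bal
  Pool.Agent.Helper96.EXP Pool.Agent.BED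

/-- FRE: the free mass in the bulk -/
def FreStmt : Prop :=
  ∀ (d : ℕ) (ε : ℝ), 3 ≤ d → 0 < ε → ∃ a y₀ : ℝ, 0 < a ∧ a ≤ 1 ∧ 0 < y₀ ∧
    ∀ y : ℝ, 0 < y → y ≤ y₀ → ENNReal.ofReal (Real.pi - ε) ≤
      ∫⁻ E in Set.Icc (-(2 * d - a)) (2 * d - a), ENNReal.ofReal ((g0 d (zz y E)).im)

variable {d : ℕ}

/-- the near and the far sites -/
def nf (d r R : ℕ) : Set (Site d) := {x | sd 0 x < r ∨ R ≤ sd 0 x}

/-- on the good event the mass of the near and the far sites is small -/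
theorem mm_good {V : Site d → ℝ} {E η ε : ℝ} {m : ℂ} {r R : ℕ} (hη : 0 < η) (hε : 0 ≤ ε)
    (h : ¬ BadZM V E η m ε r R) : mm (nf d r R) η V E ≤ ENNReal.ofReal (2 * ε) := by
  unfold BadZM at h
  push Not at h
  obtain ⟨-, h1, h2⟩ := h
  have key : ∀ (P : Site d → Prop) [DecidablePred P],
      ENNReal.ofReal (η * ∑' x : Site d, (if P x then ‖G V (zz η E) (del 0) x‖ ^ 2 else 0)) =
      ∑' x : Site d, ENNReal.ofReal (if P x then η * ‖G V (zz η E) (del 0) x‖ ^ 2 else 0) := by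
    intro P _
    rw [← tsum_mul_left, ENNReal.ofReal_tsum_of_nonneg]
    · refine tsum_congr fun x => ?_
      split_ifs <;> simp
    · intro x
      split_ifs <;> positivity
    · exact (H30.summable_if _ P).mul_left η
  have h3 := ENNReal.ofReal_le_ofReal h1
  have h4 := ENNReal.ofReal_le_ofReal h2
  rw [key] at h3 h4
  have h5 : mm (nf d r R) η V E ≤
      (∑' x : Site d, ENNReal.ofReal (if sd 0 x < r then η * ‖G V (zz η E) (del 0) x‖ ^ 2 else 0)) +
      ∑' x : Site d, ENNReal.ofReal (if R ≤ sd 0 x then η * ‖G V (zz η E) (del 0) x‖ ^ 2 else 0) := by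
    rw [← ENNReal.tsum_add]
    refine ENNReal.tsum_le_tsum fun x => ?_
    by_cases hx : x ∈ nf d r R
    · rw [Set.indicator_of_mem hx]
      rcases hx with hx | hx
      · rw [if_pos hx]
        exact le_self_add
      · rw [if_pos (c := R ≤ sd 0 x) hx]
        exact le_add_self
    · rw [Set.indicator_of_notMem hx]
      exact bot_le
  refine h5.trans ((add_le_add h3 h4).trans ?_)
  rw [← ENNReal.ofReal_add hε hε]
  exact ENNReal.ofReal_le_ofReal (by linarith)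

/-- the comparison at one energy -/
theorem key (P : Measure (Site d → ℝ)) [IsProbabilityMeasure P] {E η ε : ℝ} {m : ℂ} {r R : ℕ}
    (hη : 0 < η) (hε : 0 ≤ ε) (h : P {V | BadZM V E η m ε r R} ≤ ENNReal.ofReal ε) :
    ∫⁻ V, mm (nf d r R) η V E ∂P + ENNReal.ofReal (m.im - ε) * ENNReal.ofReal (1 - ε) ≤
      ENNReal.ofReal (2 * ε) + ∫⁻ V, mm Set.univ η V E ∂P := by
  set M := toMeasurable P {V | BadZM V E η m ε r R} with hM
  have hMm : MeasurableSet M := measurableSet_toMeasurable _ _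
  have hMc : ENNReal.ofReal (1 - ε) ≤ P Mᶜ := by
    rw [prob_compl_eq_one_sub hMm, hM, measure_toMeasurable, ENNReal.ofReal_sub _ hε,
      ENNReal.ofReal_one]
    exact tsub_le_tsub_left h 1
  have e1 : ∫⁻ V, Mᶜ.indicator (fun _ => ENNReal.ofReal (m.im - ε)) V ∂P =
      ENNReal.ofReal (m.im - ε) * P Mᶜ := by
    rw [lintegral_indicator hMm.compl, setLIntegral_const]
  calc ∫⁻ V, mm (nf d r R) η V E ∂P + ENNReal.ofReal (m.im - ε) * ENNReal.ofReal (1 - ε)
      ≤ ∫⁻ V, mm (nf d r R) η V E ∂P +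
        ∫⁻ V, Mᶜ.indicator (fun _ => ENNReal.ofReal (m.im - ε)) V ∂P := by
        rw [e1]
        exact add_le_add le_rfl (mul_le_mul' le_rfl hMc)
    _ = ∫⁻ V, (mm (nf d r R) η V E + Mᶜ.indicator (fun _ => ENNReal.ofReal (m.im - ε)) V) ∂P :=
        (lintegral_add_left (meas_mm_V _ hη E) _).symm
    _ ≤ ∫⁻ V, (ENNReal.ofReal (2 * ε) + mm Set.univ η V E) ∂P := by
        refine lintegral_mono fun V => ?_
        by_cases hV : V ∈ M
        · have hV' : V ∉ Mᶜ := fun h => h hV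
          rw [Set.indicator_of_notMem hV', add_zero]
          exact (mm_mono (Set.subset_univ _) η V E).trans le_add_self
        · have hg : ¬ BadZM V E η m ε r R := fun hb => hV (subset_toMeasurable P _ hb)
          rw [Set.indicator_of_mem (show V ∈ Mᶜ from hV)]
          refine add_le_add (mm_good hη hε hg) ?_
          rw [mm_univ V hη E]
          refine ENNReal.ofReal_le_ofReal ?_
          have h1 : ‖G V (zz η E) (del 0) 0 - m‖ ≤ ε := by
            by_contra hc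
            exact hg (Or.inl (not_le.1 hc))
          have h2 := (Complex.abs_im_le_norm (G V (zz η E) (del 0) 0 - m)).trans h1
          rw [Complex.sub_im] at h2
          have h3 := (abs_le.1 h2).1
          linarith
    _ = ENNReal.ofReal (2 * ε) + ∫⁻ V, mm Set.univ η V E ∂P := by
        rw [lintegral_add_left measurable_const, lintegral_const, measure_univ, mul_one]

/-- the sum over the energies -/
theorem sumE (P : Measure (Site d → ℝ)) [IsProbabilityMeasure P] {η ε κ : ℝ} {g : ℝ → ℂ} {r R : ℕ}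
    {B : Set ℝ} (hB : MeasurableSet B) (hBv : volume B ≤ ENNReal.ofReal (4 * d))
    (hη : 0 < η) (hε : 0 ≤ ε) (hκ : 0 ≤ κ)
    (h : ∀ E ∈ B, P {V | BadZM V E η (g E) ε r R} ≤ ENNReal.ofReal ε)
    (hg : ENNReal.ofReal (Real.pi - κ) ≤ ∫⁻ E in B, ENNReal.ofReal ((g E).im)) :
    ∫⁻ E : ℝ, ∫⁻ V, mm (nf d r R) η V E ∂P ≤ ENNReal.ofReal (κ + (12 * d + 4) * ε) := by
  have hpi := Real.pi_pos
  have hpi4 := Real.pi_le_four
  set a : ℝ → ℝ≥0∞ := fun E => ∫⁻ V, mm (nf d r R) η V E ∂P with ha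
  set b : ℝ → ℝ≥0∞ := fun E => ∫⁻ V, mm Set.univ η V E ∂P with hb
  have hbi : ∫⁻ E : ℝ, b E = ENNReal.ofReal Real.pi := by
    rw [hb]
    rw [lintegral_lintegral_swap (f := fun (E : ℝ) (V : Site d → ℝ) => mm Set.univ η V E)
      (meas_mm Set.univ hη).aemeasurable]
    simp only [lint_univ _ hη]
    rw [lintegral_const, measure_univ, mul_one]
  have hab : ∀ E, a E ≤ b E := fun E => lintegral_mono fun V => mm_mono (Set.subset_univ _) η V E
  have hbm : Measurable b := (meas_mm Set.univ hη).lintegral_prod_right'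
  have ham : Measurable a := (meas_mm (nf d r R) hη).lintegral_prod_right'
  -- the part in `B`
  have h1 : (∫⁻ E in B, a E) + ENNReal.ofReal (1 - ε) * ∫⁻ E in B, ENNReal.ofReal ((g E).im - ε) ≤
      ENNReal.ofReal (2 * ε) * volume B + ∫⁻ E in B, b E := by
    have e1 : ∫⁻ E in B, ENNReal.ofReal ((g E).im - ε) * ENNReal.ofReal (1 - ε) =
        ENNReal.ofReal (1 - ε) * ∫⁻ E in B, ENNReal.ofReal ((g E).im - ε) := by
      rw [lintegral_mul_const' _ _ ENNReal.ofReal_ne_top, mul_comm]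
    rw [← e1, ← lintegral_add_left ham, ← setLIntegral_const, ← lintegral_add_left measurable_const]
    exact setLIntegral_mono' hB fun E hE => key P hη hε (h E hE)
  have h2 : ∫⁻ E in Bᶜ, a E ≤ ∫⁻ E in Bᶜ, b E := lintegral_mono hab
  have h3 : (∫⁻ E : ℝ, a E) + ENNReal.ofReal (1 - ε) * ∫⁻ E in B, ENNReal.ofReal ((g E).im - ε) ≤
      ENNReal.ofReal (2 * ε) * volume B + ENNReal.ofReal Real.pi := by
    rw [← hbi, ← lintegral_add_compl a hB, ← lintegral_add_compl b hB]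
    calc (∫⁻ E in B, a E) + (∫⁻ E in Bᶜ, a E) +
          ENNReal.ofReal (1 - ε) * ∫⁻ E in B, ENNReal.ofReal ((g E).im - ε)
        = ((∫⁻ E in B, a E) + ENNReal.ofReal (1 - ε) *
            ∫⁻ E in B, ENNReal.ofReal ((g E).im - ε)) + ∫⁻ E in Bᶜ, a E := by ring
      _ ≤ (ENNReal.ofReal (2 * ε) * volume B + ∫⁻ E in B, b E) + ∫⁻ E in Bᶜ, b E :=
          add_le_add h1 h2
      _ = ENNReal.ofReal (2 * ε) * volume B + ((∫⁻ E in B, b E) + ∫⁻ E in Bᶜ, b E) := by ring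
  -- the free mass
  have h4 : ENNReal.ofReal (Real.pi - κ) ≤
      (∫⁻ E in B, ENNReal.ofReal ((g E).im - ε)) + ENNReal.ofReal ε * volume B := by
    refine hg.trans ?_
    rw [← setLIntegral_const, ← lintegral_add_right _ measurable_const]
    refine lintegral_mono fun E => ?_
    refine (ENNReal.ofReal_le_ofReal (q := ((g E).im - ε) + ε) (by linarith)).trans ?_
    exact ENNReal.ofReal_add_le
  have hd0 : (0 : ℝ) ≤ d := Nat.cast_nonneg d
  have h5 : ENNReal.ofReal (Real.pi - κ - 4 * d * ε) ≤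
      ∫⁻ E in B, ENNReal.ofReal ((g E).im - ε) := by
    have h6 : ENNReal.ofReal ε * volume B ≤ ENNReal.ofReal (4 * d * ε) := by
      refine (mul_le_mul' le_rfl hBv).trans ?_
      rw [← ENNReal.ofReal_mul hε]
      exact ENNReal.ofReal_le_ofReal (by linarith)
    rw [ENNReal.ofReal_sub _ (by positivity)]
    exact tsub_le_iff_right.2 (h4.trans (add_le_add le_rfl h6))
  have h7 : ENNReal.ofReal (Real.pi - (κ + (4 * d + 4) * ε)) ≤
      ENNReal.ofReal (1 - ε) * ∫⁻ E in B, ENNReal.ofReal ((g E).im - ε) := by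
    by_cases hε1 : ε ≤ 1
    · refine le_trans ?_ (mul_le_mul' le_rfl h5)
      rw [← ENNReal.ofReal_mul (by linarith)]
      refine ENNReal.ofReal_le_ofReal ?_
      have e2 : (1 - ε) * (Real.pi - κ - 4 * d * ε) =
          Real.pi - κ - 4 * d * ε - ε * Real.pi + ε * κ + ε * (4 * d * ε) := by ring
      rw [e2]
      have e3 : ε * Real.pi ≤ ε * 4 := mul_le_mul_of_nonneg_left hpi4 hε
      have e4 : 0 ≤ ε * κ := mul_nonneg hε hκ
      have e5 : 0 ≤ ε * (4 * d * ε) := by positivity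
      linarith
    · have e6 : Real.pi - (κ + (4 * d + 4) * ε) ≤ 0 := by
        have : 0 ≤ 4 * (d : ℝ) * ε := by positivity
        push Not at hε1
        nlinarith
      rw [ENNReal.ofReal_of_nonpos e6]
      exact bot_le
  have h8 : (∫⁻ E : ℝ, a E) + ENNReal.ofReal (Real.pi - (κ + (4 * d + 4) * ε)) ≤
      ENNReal.ofReal (8 * d * ε) + ENNReal.ofReal Real.pi := by
    refine (add_le_add le_rfl h7).trans (h3.trans (add_le_add ?_ le_rfl))
    refine (mul_le_mul' le_rfl hBv).trans ?_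
    rw [← ENNReal.ofReal_mul (by positivity)]
    exact ENNReal.ofReal_le_ofReal (by linarith)
  have h9 : ENNReal.ofReal Real.pi ≤ ENNReal.ofReal (Real.pi - (κ + (4 * d + 4) * ε)) +
      ENNReal.ofReal (κ + (4 * d + 4) * ε) := by
    refine (ENNReal.ofReal_le_ofReal (q := (Real.pi - (κ + (4 * d + 4) * ε)) +
      (κ + (4 * d + 4) * ε)) (by linarith)).trans ENNReal.ofReal_add_le
  have h10 : ENNReal.ofReal (Real.pi - (κ + (4 * d + 4) * ε)) + ∫⁻ E : ℝ, a E ≤
      ENNReal.ofReal (Real.pi - (κ + (4 * d + 4) * ε)) +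
        (ENNReal.ofReal (8 * d * ε) + ENNReal.ofReal (κ + (4 * d + 4) * ε)) := by
    calc ENNReal.ofReal (Real.pi - (κ + (4 * d + 4) * ε)) + ∫⁻ E : ℝ, a E
        = (∫⁻ E : ℝ, a E) + ENNReal.ofReal (Real.pi - (κ + (4 * d + 4) * ε)) := add_comm _ _
      _ ≤ ENNReal.ofReal (8 * d * ε) + ENNReal.ofReal Real.pi := h8
      _ ≤ ENNReal.ofReal (8 * d * ε) + (ENNReal.ofReal (Real.pi - (κ + (4 * d + 4) * ε)) +
          ENNReal.ofReal (κ + (4 * d + 4) * ε)) := add_le_add le_rfl h9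
      _ = _ := by ring
  have h11 := (ENNReal.add_le_add_iff_left ENNReal.ofReal_ne_top).1 h10
  refine h11.trans ?_
  rw [← ENNReal.ofReal_add (by positivity) (by positivity)]
  exact ENNReal.ofReal_le_ofReal (by linarith)

/-- the annulus with real radii in terms of the one with integer radii -/
theorem nf_of {s T : ℝ} (hs : 0 < s) (hs1 : s ≤ 1) (hs2 : 2 ≤ s ^ (-(1 / 125) : ℝ))
    (hT : s ^ (-3 : ℝ) ≤ T) {x : Site d}
    (hx : (sd 0 x : ℝ) ≤ s ^ (-(99 / 100) : ℝ) * Real.sqrt T ∨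
      s ^ (-(101 / 100) : ℝ) * Real.sqrt T ≤ sd 0 x) :
    x ∈ nf d ⌊s ^ (1 / 500 - 1 : ℝ) * Real.sqrt T⌋₊ ⌊s ^ (-(1 / 500) - 1 : ℝ) * Real.sqrt T⌋₊ := by
  have h1 : 1 ≤ s ^ (-3 : ℝ) := Real.one_le_rpow_of_pos_of_le_one_of_nonpos hs hs1 (by norm_num)
  have hT1 : 1 ≤ T := h1.trans hT
  have hq1 : 1 ≤ Real.sqrt T := Real.one_le_sqrt.2 hT1
  have hq0 : 0 ≤ Real.sqrt T := by linarith
  rcases hx with hx | hx
  · left
    have e1 : s ^ (1 / 500 - 1 : ℝ) = s ^ (-(99 / 100) : ℝ) * s ^ (-(1 / 125) : ℝ) := by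
      rw [← Real.rpow_add hs]
      norm_num
    have h2 : 1 ≤ s ^ (-(99 / 100) : ℝ) :=
      Real.one_le_rpow_of_pos_of_le_one_of_nonpos hs hs1 (by norm_num)
    have h3 : 1 ≤ s ^ (-(99 / 100) : ℝ) * Real.sqrt T := by
      calc (1 : ℝ) = 1 * 1 := (one_mul _).symm
        _ ≤ _ := mul_le_mul h2 hq1 zero_le_one (by linarith)
    have h4 : s ^ (-(99 / 100) : ℝ) * Real.sqrt T + 1 ≤ s ^ (1 / 500 - 1 : ℝ) * Real.sqrt T := by
      rw [e1]
      have h5 : 2 * (s ^ (-(99 / 100) : ℝ) * Real.sqrt T) ≤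
          s ^ (-(1 / 125) : ℝ) * (s ^ (-(99 / 100) : ℝ) * Real.sqrt T) :=
        mul_le_mul_of_nonneg_right hs2 (by linarith)
      calc s ^ (-(99 / 100) : ℝ) * Real.sqrt T + 1 ≤ 2 * (s ^ (-(99 / 100) : ℝ) * Real.sqrt T) := by
            linarith
        _ ≤ _ := h5
        _ = _ := by ring
    have h6 : s ^ (1 / 500 - 1 : ℝ) * Real.sqrt T < ⌊s ^ (1 / 500 - 1 : ℝ) * Real.sqrt T⌋₊ + 1 :=
      Nat.lt_floor_add_one _
    have h7 : (sd 0 x : ℝ) < ⌊s ^ (1 / 500 - 1 : ℝ) * Real.sqrt T⌋₊ := by linarith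
    exact_mod_cast h7
  · right
    have h2 : s ^ (-(1 / 500) - 1 : ℝ) ≤ s ^ (-(101 / 100) : ℝ) :=
      Real.rpow_le_rpow_of_exponent_ge hs hs1 (by norm_num)
    have h3 : s ^ (-(1 / 500) - 1 : ℝ) * Real.sqrt T ≤ sd 0 x :=
      (mul_le_mul_of_nonneg_right h2 hq0).trans hx
    have h4 : ((⌊s ^ (-(1 / 500) - 1 : ℝ) * Real.sqrt T⌋₊ : ℕ) : ℝ) ≤ sd 0 x :=
      (Nat.floor_le (mul_nonneg (Real.rpow_nonneg hs.le _) hq0)).trans h3
    exact_mod_cast h4

theorem exists_s125 : ∃ s₁ : ℝ, 0 < s₁ ∧ s₁ ≤ 1 ∧ ∀ s : ℝ, 0 < s → s ≤ s₁ →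
    2 ≤ s ^ (-(1 / 125) : ℝ) := by
  refine ⟨2 ^ (-125 : ℝ), by positivity, Real.rpow_le_one_of_one_le_of_nonpos (by norm_num)
    (by norm_num), fun s hs h => ?_⟩
  have h1 : (2 ^ (-125 : ℝ) : ℝ) ^ (-(1 / 125) : ℝ) ≤ s ^ (-(1 / 125) : ℝ) :=
    Real.rpow_le_rpow_of_nonpos hs h (by norm_num)
  have h2 : (2 ^ (-125 : ℝ) : ℝ) ^ (-(1 / 125) : ℝ) = 2 := by
    rw [← Real.rpow_mul (by norm_num)]
    norm_num
  linarith

/-- the outer sites, real radii -/
def out (d : ℕ) (s T : ℝ) : Set (Site d) :=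
  {x | (sd 0 x : ℝ) ≤ s ^ (-(99 / 100) : ℝ) * Real.sqrt T ∨
    s ^ (-(101 / 100) : ℝ) * Real.sqrt T ≤ sd 0 x}

theorem meas_evol (t : ℝ) (x : Site d) : Measurable fun V : Site d → ℝ => evol V t x := by
  have h2 := continuous_evol_pot (d := d) t
  have h3 : Continuous fun V : Site d → ℝ => coord x (evol V t) := (coord x).continuous.comp h2
  simp only [coord_apply] at h3
  exact h3.measurable

/-- the average over the times, any measurable set of sites: measurability in the potential -/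
theorem meas_avg (S : Set (Site d)) (T : ℝ) :
    Measurable fun V : Site d → ℝ => ∫⁻ t in Set.Ioc (0 : ℝ) T, ∑' x : Site d,
      S.indicator (fun x => ENNReal.ofReal (‖evol V t x‖ ^ 2)) x := by
  have h1 : ∀ x : Site d, Measurable fun p : (Site d → ℝ) × ℝ => evol p.1 p.2 x := by
    intro x
    have h := measurable_uncurry_of_continuous_of_measurable
      (u := fun (t : ℝ) (V : Site d → ℝ) => evol V t x)
      (fun V => continuous_coord (isEvolution_evol V).1 x) (fun t => meas_evol t x)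
    have h' : Measurable ((fun p : ℝ × (Site d → ℝ) => evol p.2 p.1 x) ∘
        (Prod.swap : (Site d → ℝ) × ℝ → ℝ × (Site d → ℝ))) := h.comp measurable_swap
    exact h'
  have h2 : Measurable fun p : (Site d → ℝ) × ℝ => ∑' x : Site d,
      S.indicator (fun x => ENNReal.ofReal (‖evol p.1 p.2 x‖ ^ 2)) x := by
    refine Measurable.tsum fun x => ?_
    by_cases h : x ∈ S
    · simp only [Set.indicator_of_mem h]
      exact ENNReal.measurable_ofReal.comp ((h1 x).norm.pow_const 2)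
    · simp only [Set.indicator_of_notMem h]
      exact measurable_const
  exact h2.lintegral_prod_right'

/-- TAV, core: the mean of the mass outside the annulus -/
theorem tav0 (hQ : QamStmt) (hF : FreStmt) (d : ℕ) (ε : ℝ) (hd : 3 ≤ d) (hε : 0 < ε) :
    ∃ s₀ : ℝ, 0 < s₀ ∧ s₀ ≤ 1 ∧ ∀ (σ T : ℝ), σ ≠ 0 → |σ| ≤ s₀ → |σ| ^ (-3 : ℝ) ≤ T →
      ∫⁻ V, (∫⁻ t in Set.Ioc (0 : ℝ) T, ∑' x : Site d, (out d |σ| T).indicator
        (fun x => ENNReal.ofReal (‖evol V t x‖ ^ 2)) x) ∂(PP d (gl σ)) ≤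
        ENNReal.ofReal (ε * T) := by
  have hd0 : (0 : ℝ) ≤ d := Nat.cast_nonneg d
  obtain ⟨a, y₀, ha, ha1, hy₀, hfre⟩ := hF d (ε / 4) hd (by linarith)
  set ε' : ℝ := ε / (4 * (12 * d + 4)) with hε'
  have hε'0 : 0 < ε' := by rw [hε']; positivity
  have hε'1 : (12 * d + 4) * ε' = ε / 4 := by
    rw [hε']
    field_simp
  obtain ⟨s₂, hs₂, hs₂1, hq⟩ := hQ d a ε' hd ha hε'0
  obtain ⟨s₁, hs₁, hs₁1, h125⟩ := exists_s125
  refine ⟨min (min s₁ s₂) y₀, lt_min (lt_min hs₁ hs₂) hy₀,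
    (min_le_left _ _).trans ((min_le_left _ _).trans hs₁1), fun σ T hσ hσs hT => ?_⟩
  have hs : 0 < |σ| := abs_pos.2 hσ
  have hσ1 : |σ| ≤ s₁ := hσs.trans ((min_le_left _ _).trans (min_le_left _ _))
  have hσ2 : |σ| ≤ s₂ := hσs.trans ((min_le_left _ _).trans (min_le_right _ _))
  have hσ3 : |σ| ≤ y₀ := hσs.trans (min_le_right _ _)
  have hσ11 : |σ| ≤ 1 := hσ1.trans hs₁1
  have hT0 : 0 < T := lt_of_lt_of_le (Real.rpow_pos_of_pos hs _) hT
  have hη : 0 < 1 / T := by positivity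
  have hT2 : 1 / T ≤ y₀ := by
    have h1 : |σ| ^ (-1 : ℝ) ≤ T :=
      (Real.rpow_le_rpow_of_exponent_ge hs hσ11 (by norm_num)).trans hT
    rw [Real.rpow_neg_one] at h1
    have h2 : 1 / T ≤ |σ| := by
      rw [one_div]
      exact inv_le_of_inv_le₀ hs h1
    exact h2.trans hσ3
  set r : ℕ := ⌊|σ| ^ (1 / 500 - 1 : ℝ) * Real.sqrt T⌋₊ with hr
  set R : ℕ := ⌊|σ| ^ (-(1 / 500) - 1 : ℝ) * Real.sqrt T⌋₊ with hR
  have hsub : out d |σ| T ⊆ nf d r R := fun x hx => nf_of hs hσ11 (h125 _ hs hσ1) hT hx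
  have hB : volume (Set.Icc (-(2 * (d : ℝ) - a)) (2 * d - a)) ≤ ENNReal.ofReal (4 * d) := by
    rw [Real.volume_Icc]
    exact ENNReal.ofReal_le_ofReal (by linarith)
  have hsum := sumE (d := d) (PP d (gl σ)) (η := 1 / T) (ε := ε') (κ := ε / 4)
    (g := fun E => g0 d (zz (1 / T) E)) (r := r) (R := R) measurableSet_Icc hB hη hε'0.le
    (by linarith) (fun E hE => hq σ E T hσ hσ2 (abs_le.2 hE) hT) (hfre (1 / T) hη hT2)
  rw [hε'1] at hsum
  have hsum' : ∫⁻ V, (∫⁻ E : ℝ, mm (nf d r R) (1 / T) V E) ∂(PP d (gl σ)) ≤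
      ENNReal.ofReal (ε / 4 + ε / 4) := by
    rw [lintegral_lintegral_swap (f := fun (E : ℝ) (V : Site d → ℝ) => mm (nf d r R) (1 / T) V E)
      (meas_mm (nf d r R) hη).aemeasurable] at hsum
    exact hsum
  calc ∫⁻ V, (∫⁻ t in Set.Ioc (0 : ℝ) T, ∑' x : Site d, (out d |σ| T).indicator
        (fun x => ENNReal.ofReal (‖evol V t x‖ ^ 2)) x) ∂(PP d (gl σ))
      ≤ ∫⁻ V, ENNReal.ofReal (2 * T) * (∫⁻ E : ℝ, mm (nf d r R) (1 / T) V E)
          ∂(PP d (gl σ)) := by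
        refine lintegral_mono fun V => ?_
        refine (avg_le (out d |σ| T) (isEvolution_evol V) hT0).trans ?_
        exact mul_le_mul' le_rfl (lintegral_mono fun E => mm_mono hsub _ _ _)
    _ = ENNReal.ofReal (2 * T) * ∫⁻ V, (∫⁻ E : ℝ, mm (nf d r R) (1 / T) V E)
          ∂(PP d (gl σ)) := lintegral_const_mul' _ _ ENNReal.ofReal_ne_top
    _ ≤ ENNReal.ofReal (2 * T) * ENNReal.ofReal (ε / 4 + ε / 4) := mul_le_mul' le_rfl hsum'
    _ = ENNReal.ofReal (ε * T) := by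
        rw [← ENNReal.ofReal_mul (by positivity)]
        congr 1
        ring

theorem tav (hQ : QamStmt) (hF : FreStmt) : TavStmt := by
  intro d ε hd hε
  obtain ⟨s₀, h1, h2, h⟩ := tav0 hQ hF d ε hd hε
  refine ⟨s₀, h1, h2, fun σ T hσ hσs hT => ?_⟩
  refine le_trans (le_of_eq ?_) (h σ T hσ hσs hT)
  refine lintegral_congr fun V => lintegral_congr fun t => tsum_congr fun x => ?_
  by_cases hx : x ∈ out d |σ| T
  · rw [Set.indicator_of_mem hx, if_pos]
    exact hx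
  · rw [Set.indicator_of_notMem hx, if_neg]
    exact hx

/-- the event form, by Markov's inequality -/
theorem tev (hQ : QamStmt) (hF : FreStmt) (d : ℕ) (ε : ℝ) (hd : 3 ≤ d) (hε : 0 < ε) :
    ∃ s₀ : ℝ, 0 < s₀ ∧ s₀ ≤ 1 ∧ ∀ (σ T : ℝ), σ ≠ 0 → |σ| ≤ s₀ → |σ| ^ (-3 : ℝ) ≤ T →
      PP d (gl σ) {V | ENNReal.ofReal (ε * T) < ∫⁻ t in Set.Ioc (0 : ℝ) T, ∑' x : Site d,
        (out d |σ| T).indicator (fun x => ENNReal.ofReal (‖evol V t x‖ ^ 2)) x} ≤
        ENNReal.ofReal ε := by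
  obtain ⟨s₀, h1, h2, h⟩ := tav0 hQ hF d (ε * ε) hd (by positivity)
  refine ⟨s₀, h1, h2, fun σ T hσ hσs hT => ?_⟩
  have hs : 0 < |σ| := abs_pos.2 hσ
  have hT0 : 0 < T := lt_of_lt_of_le (Real.rpow_pos_of_pos hs _) hT
  have h3 := mul_meas_ge_le_lintegral₀ (μ := PP d (gl σ))
    (meas_avg (out d |σ| T) T).aemeasurable (ENNReal.ofReal (ε * T))
  have h4 := h3.trans (h σ T hσ hσs hT)
  have h5 : ENNReal.ofReal (ε * ε * T) = ENNReal.ofReal (ε * T) * ENNReal.ofReal ε := by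
    rw [← ENNReal.ofReal_mul (by positivity)]
    congr 1
    ring
  rw [h5] at h4
  have h6 := (ENNReal.mul_le_mul_iff_right (a := ENNReal.ofReal (ε * T))
    (ENNReal.ofReal_pos.2 (by positivity)).ne' ENNReal.ofReal_ne_top).1 h4
  refine le_trans (measure_mono ?_) h6
  intro V hV
  rw [Set.mem_ofPred_eq] at hV ⊢
  exact hV.le

end Pool.Agent.QDA.H76
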